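import Mathlib

/-!
# The two deterministic pool statements (MP_7f94de)
-/

open Finset

namespace Pool.Agent.Helper94.ES

/-- large `k` deterministic statement -/
def PoolDT : Prop :=
  ∀ ε : ℝ, 0 < ε → ∀ c : ℝ, 0 < c → ∀ r0 : ℝ, 0 < r0 →
  ∃ ε1 : ℝ, 0 < ε1 ∧ ∃ δ : ℝ, 0 < δ ∧ ∀ R : ℝ, 1 ≤ R →
  ∃ K : ℕ, ∀ R0 : ℝ, 0 < R0 → ∀ θ : ℝ, 0 < θ →
  ∃ K1 : ℕ, ∃ γ : ℝ, 0 < γ ∧ ∃ n0 : ℕ, ∀ n k N : ℕ, n0 ≤ n → K1 ≤ k → (k : ℝ) ≤ γ * n →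
    N = n + ⌈δ * n⌉₊ → ∀ v : ℕ → ℂ,
    (∑ i ∈ range N, min 1 (‖v i‖ / R) ≤ ε1 * N) →
    (∃ B ⊆ range N, B.card = K ∧ (∀ i ∈ B, ‖v i‖ ≤ R0) ∧
      ∀ i ∈ B, ∀ j ∈ B, i ≠ j → θ ≤ ‖v i - v j‖) →
    ((((range N).powersetCard n).filter (fun A => ‖∑ s ∈ A.powersetCard k, ∏ i ∈ s, v i‖
        ≤ Real.exp (-(ε * n)) ∧ k ≤ (A.filter (fun i => r0 ≤ ‖v i‖)).card)).card : ℝ)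
      ≤ c * (N.choose n : ℝ)

/-- bounded `k` deterministic statement -/
def SmallDT : Prop :=
  ∀ ε : ℝ, 0 < ε → ∀ c : ℝ, 0 < c → ∀ K1 : ℕ,
  ∃ δ : ℝ, 0 < δ ∧ ∃ K : ℕ, ∀ θ : ℝ, 0 < θ →
  ∃ n0 : ℕ, ∀ n k N : ℕ, n0 ≤ n → 1 ≤ k → k ≤ K1 → N = n + ⌈δ * n⌉₊ → ∀ v : ℕ → ℂ,
    (∃ B ⊆ range N, B.card = K ∧ ∀ i ∈ B, ∀ j ∈ B, i ≠ j → θ ≤ ‖v i - v j‖) →
    ((((range N).powersetCard n).filter (fun A => ‖∑ s ∈ A.powersetCard k, ∏ i ∈ s, v i‖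
        ≤ Real.exp (-(ε * n)))).card : ℝ)
      ≤ c * (N.choose n : ℝ)

end Pool.Agent.Helper94.ES
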