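import Pool.Agent.Helper94.ES.Defs

/-!
# Basic identities for the coefficients `EE`
-/

open Finset Polynomial

namespace Pool.Agent.Helper94.ES

set_option linter.unusedSectionVars false

variable {ι : Type*} [DecidableEq ι] {α β : ι → ℂ}

theorem br_self (i : ι) : br α β i i = 0 := by simp [br]

theorem br_swap (i j : ι) : br α β j i = - br α β i j := by simp [br]

theorem EE_empty (j : ℕ) : EE α β ∅ j = if j = 0 then 1 else 0 := by
  simp [EE, Polynomial.coeff_one]

theorem EE_insert_zero {S : Finset ι} {i : ι} (hi : i ∉ S) :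
    EE α β (insert i S) 0 = α i * EE α β S 0 := by
  unfold EE
  rw [Finset.prod_insert hi, add_mul, Polynomial.coeff_add, Polynomial.coeff_C_mul, mul_assoc,
    Polynomial.coeff_C_mul, Polynomial.coeff_X_mul_zero]
  ring

theorem EE_insert_succ {S : Finset ι} {i : ι} (hi : i ∉ S) (j : ℕ) :
    EE α β (insert i S) (j + 1) = α i * EE α β S (j + 1) + β i * EE α β S j := by
  unfold EE
  rw [Finset.prod_insert hi, add_mul, Polynomial.coeff_add, Polynomial.coeff_C_mul, mul_assoc,
    Polynomial.coeff_C_mul, Polynomial.coeff_X_mul]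

/-- total mass bound -/
theorem sum_norm_EE_le (S : Finset ι) (m : ℕ) :
    ∑ j ∈ range m, ‖EE α β S j‖ ≤ ∏ i ∈ S, (‖α i‖ + ‖β i‖) := by
  induction S using Finset.induction_on generalizing m with
  | empty =>
    simp only [EE_empty, Finset.prod_empty]
    rcases m with _ | m
    · simp
    · rw [Finset.sum_range_succ']
      simp
  | insert i S hi ih =>
    rw [Finset.prod_insert hi]
    rcases m with _ | m
    · simp only [Finset.range_zero, Finset.sum_empty]
      exact mul_nonneg (by positivity) (Finset.prod_nonneg fun _ _ => by positivity)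
    · rw [Finset.sum_range_succ', EE_insert_zero hi]
      have h1 : ∑ j ∈ range m, ‖EE α β (insert i S) (j + 1)‖
          ≤ ∑ j ∈ range m, (‖α i‖ * ‖EE α β S (j + 1)‖ + ‖β i‖ * ‖EE α β S j‖) := by
        refine Finset.sum_le_sum fun j _ => ?_
        rw [EE_insert_succ hi]
        refine (norm_add_le _ _).trans ?_
        rw [norm_mul, norm_mul]
      have h2 : ∑ j ∈ range (m + 1), ‖EE α β S j‖
          = ∑ j ∈ range m, ‖EE α β S (j + 1)‖ + ‖EE α β S 0‖ := Finset.sum_range_succ' _ _
      have h3 := ih (m + 1)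
      have h4 := ih m
      rw [h2] at h3
      rw [norm_mul]
      calc ∑ j ∈ range m, ‖EE α β (insert i S) (j + 1)‖ + ‖α i‖ * ‖EE α β S 0‖
          ≤ (‖α i‖ * ∑ j ∈ range m, ‖EE α β S (j + 1)‖ + ‖β i‖ * ∑ j ∈ range m, ‖EE α β S j‖)
            + ‖α i‖ * ‖EE α β S 0‖ := by
            rw [Finset.mul_sum, Finset.mul_sum, ← Finset.sum_add_distrib]; gcongr
        _ = ‖α i‖ * (∑ j ∈ range m, ‖EE α β S (j + 1)‖ + ‖EE α β S 0‖)
            + ‖β i‖ * ∑ j ∈ range m, ‖EE α β S j‖ := by ring
        _ ≤ ‖α i‖ * (∏ i ∈ S, (‖α i‖ + ‖β i‖)) + ‖β i‖ * (∏ i ∈ S, (‖α i‖ + ‖β i‖)) := by gcongr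
        _ = _ := by ring

theorem norm_EE_le_prod (S : Finset ι) (j : ℕ) :
    ‖EE α β S j‖ ≤ ∏ i ∈ S, (‖α i‖ + ‖β i‖) := by
  refine le_trans ?_ (sum_norm_EE_le S (j + 1))
  rw [Finset.sum_range_succ]
  have : 0 ≤ ∑ j ∈ range j, ‖EE α β S j‖ := Finset.sum_nonneg fun _ _ => norm_nonneg _
  linarith

theorem norm_EE_le_one {S : Finset ι} (h : ∀ i ∈ S, ‖α i‖ + ‖β i‖ ≤ 1) (j : ℕ) :
    ‖EE α β S j‖ ≤ 1 :=
  (norm_EE_le_prod S j).trans (Finset.prod_le_one (fun _ _ => by positivity) h)

theorem norm_br_le_one {i j : ι} (hi : ‖α i‖ + ‖β i‖ ≤ 1) (hj : ‖α j‖ + ‖β j‖ ≤ 1) :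
    ‖br α β i j‖ ≤ 1 := by
  unfold br
  calc ‖α i * β j - α j * β i‖ ≤ ‖α i * β j‖ + ‖α j * β i‖ := norm_sub_le _ _
    _ = ‖α i‖ * ‖β j‖ + ‖α j‖ * ‖β i‖ := by rw [norm_mul, norm_mul]
    _ ≤ (‖α i‖ + ‖β i‖) * (‖α j‖ + ‖β j‖) := by
        nlinarith [norm_nonneg (α i), norm_nonneg (β i), norm_nonneg (α j), norm_nonneg (β j),
          mul_nonneg (norm_nonneg (α i)) (norm_nonneg (α j)),
          mul_nonneg (norm_nonneg (β i)) (norm_nonneg (β j))]
    _ ≤ 1 := by
        have h1 := norm_nonneg (α i); have h2 := norm_nonneg (β i)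
        have h3 := norm_nonneg (α j); have h4 := norm_nonneg (β j)
        nlinarith

/-- `EE` vanishes above the cardinality -/
theorem EE_eq_zero_of_card_lt {S : Finset ι} {j : ℕ} (h : S.card < j) : EE α β S j = 0 := by
  induction S using Finset.induction_on generalizing j with
  | empty => simp at h; rw [EE_empty, if_neg (by omega)]
  | insert i S hi ih =>
    rw [Finset.card_insert_of_notMem hi] at h
    obtain ⟨j, rfl⟩ : ∃ j', j = j' + 1 := ⟨j - 1, by omega⟩
    rw [EE_insert_succ hi, ih (by omega), ih (by omega)]; simp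

/-- top coefficient -/
theorem EE_card (S : Finset ι) : EE α β S S.card = ∏ i ∈ S, β i := by
  induction S using Finset.induction_on with
  | empty => simp [EE_empty]
  | insert i S hi ih =>
    rw [Finset.card_insert_of_notMem hi, EE_insert_succ hi, EE_eq_zero_of_card_lt (by omega), ih,
      Finset.prod_insert hi]; simp

/-- bottom coefficient -/
theorem EE_zero (S : Finset ι) : EE α β S 0 = ∏ i ∈ S, α i := by
  induction S using Finset.induction_on with
  | empty => simp [EE_empty]
  | insert i S hi ih => rw [EE_insert_zero hi, ih, Finset.prod_insert hi]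

theorem EE_erase_zero {A : Finset ι} {i : ι} (hi : i ∈ A) :
    EE α β A 0 = α i * EE α β (A.erase i) 0 := by
  conv_lhs => rw [← Finset.insert_erase hi]
  exact EE_insert_zero (Finset.notMem_erase i A)

theorem EE_erase_succ {A : Finset ι} {i : ι} (hi : i ∈ A) (j : ℕ) :
    EE α β A (j + 1) = α i * EE α β (A.erase i) (j + 1) + β i * EE α β (A.erase i) j := by
  conv_lhs => rw [← Finset.insert_erase hi]
  exact EE_insert_succ (Finset.notMem_erase i A) j

/-- first exchange identity (α-version) -/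
theorem exch_alpha_succ {B : Finset ι} {i a : ι} (hi : i ∈ B) (ha : a ∈ B) (hia : i ≠ a) (j : ℕ) :
    α i * EE α β (B.erase i) (j + 1) - α a * EE α β (B.erase a) (j + 1)
      = br α β i a * EE α β ((B.erase i).erase a) j := by
  have h1 : a ∈ B.erase i := Finset.mem_erase.2 ⟨hia.symm, ha⟩
  have h2 : i ∈ B.erase a := Finset.mem_erase.2 ⟨hia, hi⟩
  rw [EE_erase_succ h1, EE_erase_succ h2, Finset.erase_right_comm (a := a) (b := i)]
  unfold br; ring

theorem exch_alpha_zero {B : Finset ι} {i a : ι} (hi : i ∈ B) (ha : a ∈ B) (hia : i ≠ a) :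
    α i * EE α β (B.erase i) 0 - α a * EE α β (B.erase a) 0 = 0 := by
  have h1 : a ∈ B.erase i := Finset.mem_erase.2 ⟨hia.symm, ha⟩
  have h2 : i ∈ B.erase a := Finset.mem_erase.2 ⟨hia, hi⟩
  rw [EE_erase_zero h1, EE_erase_zero h2, Finset.erase_right_comm (a := a) (b := i)]
  ring

/-- second exchange identity (β-version) -/
theorem exch_beta {B : Finset ι} {i a : ι} (hi : i ∈ B) (ha : a ∈ B) (hia : i ≠ a) (j : ℕ) :
    β i * EE α β (B.erase i) j - β a * EE α β (B.erase a) j
      = - br α β i a * EE α β ((B.erase i).erase a) j := by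
  have h1 : a ∈ B.erase i := Finset.mem_erase.2 ⟨hia.symm, ha⟩
  have h2 : i ∈ B.erase a := Finset.mem_erase.2 ⟨hia, hi⟩
  rcases j with _ | j
  · rw [EE_erase_zero h1, EE_erase_zero h2, Finset.erase_right_comm (a := a) (b := i)]
    unfold br; ring
  · rw [EE_erase_succ h1, EE_erase_succ h2, Finset.erase_right_comm (a := a) (b := i)]
    unfold br; ring

/-- Lipschitz comparison of two erasures -/
theorem norm_EE_erase_le {B : Finset ι} (hB : ∀ i ∈ B, ‖α i‖ + ‖β i‖ = 1) {i a : ι} (hi : i ∈ B)
    (ha : a ∈ B) (hia : i ≠ a) (j : ℕ) :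
    ‖EE α β (B.erase i) j‖ ≤ 2 * (‖EE α β (B.erase a) j‖ + ‖br α β i a‖) := by
  have hS : ∀ j, ‖EE α β ((B.erase i).erase a) j‖ ≤ 1 := fun j =>
    norm_EE_le_one (fun l hl => (hB l (Finset.mem_of_mem_erase (Finset.mem_of_mem_erase hl))).le) j
  have h1 := hB i hi
  have h2 := hB a ha
  rcases le_total (1 / 2 : ℝ) ‖α i‖ with h | h
  · have h3 : ‖α i * EE α β (B.erase i) j‖ ≤ ‖EE α β (B.erase a) j‖ + ‖br α β i a‖ := by
      have h5 : ‖α a‖ ≤ 1 := by linarith [norm_nonneg (β a)]
      rcases j with _ | j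
      · have := exch_alpha_zero (α := α) (β := β) hi ha hia
        rw [sub_eq_zero] at this
        rw [this, norm_mul]
        have := mul_le_mul_of_nonneg_right h5 (norm_nonneg (EE α β (B.erase a) 0))
        have := norm_nonneg (br α β i a)
        linarith
      · have := exch_alpha_succ (α := α) (β := β) hi ha hia j
        have h6 : α i * EE α β (B.erase i) (j + 1) = α a * EE α β (B.erase a) (j + 1)
            + br α β i a * EE α β ((B.erase i).erase a) j := by rw [← this]; ring
        rw [h6]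
        refine (norm_add_le _ _).trans ?_
        rw [norm_mul, norm_mul]
        have := mul_le_mul_of_nonneg_right h5 (norm_nonneg (EE α β (B.erase a) (j + 1)))
        have := mul_le_mul_of_nonneg_left (hS j) (norm_nonneg (br α β i a))
        linarith
    rw [norm_mul] at h3
    have := mul_le_mul_of_nonneg_right h (norm_nonneg (EE α β (B.erase i) j))
    linarith
  · have h' : (1 / 2 : ℝ) ≤ ‖β i‖ := by linarith
    have h3 : ‖β i * EE α β (B.erase i) j‖ ≤ ‖EE α β (B.erase a) j‖ + ‖br α β i a‖ := by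
      have h5 : ‖β a‖ ≤ 1 := by linarith [norm_nonneg (α a)]
      have := exch_beta (α := α) (β := β) hi ha hia j
      have h6 : β i * EE α β (B.erase i) j = β a * EE α β (B.erase a) j
          + - br α β i a * EE α β ((B.erase i).erase a) j := by rw [← this]; ring
      rw [h6]
      refine (norm_add_le _ _).trans ?_
      rw [norm_mul, norm_mul, norm_neg]
      have := mul_le_mul_of_nonneg_right h5 (norm_nonneg (EE α β (B.erase a) j))
      have := mul_le_mul_of_nonneg_left (hS j) (norm_nonneg (br α β i a))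
      linarith
    rw [norm_mul] at h3
    have := mul_le_mul_of_nonneg_right h' (norm_nonneg (EE α β (B.erase i) j))
    linarith

/-- Euler-type identity -/
theorem sum_alpha_EE_erase (B : Finset ι) (j : ℕ) :
    ∑ i ∈ B, α i * EE α β (B.erase i) j = ((B.card : ℂ) - j) * EE α β B j := by
  induction B using Finset.induction_on generalizing j with
  | empty =>
    simp only [Finset.sum_empty, EE_empty, Finset.card_empty]
    split_ifs with h
    · simp [h]
    · simp
  | insert a B ha ih =>
    rw [Finset.sum_insert ha, Finset.erase_insert ha, Finset.card_insert_of_notMem ha]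
    have key : ∀ i ∈ B, (insert a B).erase i = insert a (B.erase i) := by
      intro i hi
      rw [Finset.erase_insert_of_ne (by rintro rfl; exact ha hi)]
    rcases j with _ | j
    · have : ∑ i ∈ B, α i * EE α β ((insert a B).erase i) 0
          = α a * ∑ i ∈ B, α i * EE α β (B.erase i) 0 := by
        rw [Finset.mul_sum]
        refine Finset.sum_congr rfl fun i hi => ?_
        rw [key i hi, EE_insert_zero (by simp [ha])]; ring
      rw [this, ih, EE_insert_zero ha]
      push_cast; ring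
    · have : ∑ i ∈ B, α i * EE α β ((insert a B).erase i) (j + 1)
          = α a * ∑ i ∈ B, α i * EE α β (B.erase i) (j + 1)
            + β a * ∑ i ∈ B, α i * EE α β (B.erase i) j := by
        rw [Finset.mul_sum, Finset.mul_sum, ← Finset.sum_add_distrib]
        refine Finset.sum_congr rfl fun i hi => ?_
        rw [key i hi, EE_insert_succ (by simp [ha])]; ring
      rw [this, ih, ih, EE_insert_succ ha]
      push_cast; ring

/-- Two-by-two Cramer bound. -/
theorem cramer {i j : ι} (hi : ‖α i‖ + ‖β i‖ = 1) (hj : ‖α j‖ + ‖β j‖ = 1) {X Y : ℂ} {t : ℝ}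
    (h1 : ‖α i * X + β i * Y‖ ≤ t) (h2 : ‖α j * X + β j * Y‖ ≤ t) :
    ‖br α β i j‖ * ‖X‖ ≤ 2 * t ∧ ‖br α β i j‖ * ‖Y‖ ≤ 2 * t := by
  have ht : 0 ≤ t := (norm_nonneg _).trans h1
  have a1 := norm_nonneg (α i); have a2 := norm_nonneg (β i)
  have a3 := norm_nonneg (α j); have a4 := norm_nonneg (β j)
  constructor
  · have : br α β i j * X = β j * (α i * X + β i * Y) - β i * (α j * X + β j * Y) := by
      unfold br; ring
    rw [← norm_mul, this]
    refine (norm_sub_le _ _).trans ?_
    rw [norm_mul, norm_mul]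
    nlinarith [mul_le_mul_of_nonneg_left h1 a4, mul_le_mul_of_nonneg_left h2 a2]
  · have : br α β i j * Y = α i * (α j * X + β j * Y) - α j * (α i * X + β i * Y) := by
      unfold br; ring
    rw [← norm_mul, this]
    refine (norm_sub_le _ _).trans ?_
    rw [norm_mul, norm_mul]
    nlinarith [mul_le_mul_of_nonneg_left h1 a3, mul_le_mul_of_nonneg_left h2 a1]

/-- quasi-triangle inequality for the bracket -/
theorem norm_br_triangle {i j a : ι} (hi : ‖α i‖ + ‖β i‖ = 1) (hj : ‖α j‖ + ‖β j‖ = 1)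
    (ha : ‖α a‖ + ‖β a‖ = 1) :
    ‖br α β i j‖ ≤ 2 * (‖br α β i a‖ + ‖br α β a j‖) := by
  have a1 := norm_nonneg (α i); have a2 := norm_nonneg (β i)
  have a3 := norm_nonneg (α j); have a4 := norm_nonneg (β j)
  have b1 := norm_nonneg (br α β i a); have b2 := norm_nonneg (br α β a j)
  have b3 := norm_nonneg (br α β i j)
  rcases le_total (1 / 2 : ℝ) ‖α a‖ with h | h
  · have : α a * br α β i j = α i * br α β a j + α j * br α β i a := by unfold br; ring
    have h2 : ‖α a‖ * ‖br α β i j‖ ≤ ‖α i‖ * ‖br α β a j‖ + ‖α j‖ * ‖br α β i a‖ := by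
      rw [← norm_mul, this, ← norm_mul, ← norm_mul]; exact norm_add_le _ _
    nlinarith
  · have h' : (1 / 2 : ℝ) ≤ ‖β a‖ := by linarith
    have : β a * br α β i j = β i * br α β a j + β j * br α β i a := by unfold br; ring
    have h2 : ‖β a‖ * ‖br α β i j‖ ≤ ‖β i‖ * ‖br α β a j‖ + ‖β j‖ * ‖br α β i a‖ := by
      rw [← norm_mul, this, ← norm_mul, ← norm_mul]; exact norm_add_le _ _
    nlinarith

end Pool.Agent.Helper94.ES
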