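import Pool.Agent.Helper94.ES.Interp
import Pool.Agent.Helper46.ES.MBound
import Pool.Agent.Helper43.ES.GR
import Pool.Agent.Helper66.ES.Wind

/-!
# The winding contradiction for one set `A`
-/

open Finset Polynomial

namespace Pool.Agent.Helper94.ES

set_option linter.unusedSectionVars false

variable {ι : Type*} [DecidableEq ι] {α β : ι → ℂ}

theorem sum_coeff_prod_le (M : Multiset ℂ) {r : ℝ} (hr : 0 ≤ r) (m : ℕ) :
    ∑ l ∈ range m, ‖(M.map (fun η => X - C η)).prod.coeff l‖ * r ^ l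
      ≤ (M.map (fun η => r + ‖η‖)).prod := by
  induction M using Multiset.induction_on generalizing m with
  | empty =>
    simp only [Multiset.map_zero, Multiset.prod_zero, Polynomial.coeff_one]
    rcases m with _ | m
    · simp
    · rw [Finset.sum_range_succ']
      simp
  | cons η M ih =>
    rw [Multiset.map_cons, Multiset.prod_cons, Multiset.map_cons, Multiset.prod_cons]
    set q := (M.map (fun η => X - C η)).prod with hq
    have hnn : 0 ≤ (M.map (fun η => r + ‖η‖)).prod :=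
      Multiset.prod_nonneg (by
        intro a ha
        rw [Multiset.mem_map] at ha
        obtain ⟨b, _, rfl⟩ := ha
        positivity)
    have h1 : ∀ l, ‖((X - C η) * q).coeff l‖ * r ^ l
        ≤ ‖η‖ * (‖q.coeff l‖ * r ^ l) + (if l = 0 then 0 else r * (‖q.coeff (l - 1)‖ * r ^ (l - 1))) := by
      intro l
      rw [sub_mul, coeff_sub, coeff_C_mul]
      rcases l with _ | l
      · simp
      · rw [coeff_X_mul, if_neg (Nat.succ_ne_zero _)]
        have : ‖q.coeff l - η * q.coeff (l + 1)‖ ≤ ‖q.coeff l‖ + ‖η‖ * ‖q.coeff (l + 1)‖ := by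
          refine (norm_sub_le _ _).trans ?_
          rw [norm_mul]
        calc _ ≤ (‖q.coeff l‖ + ‖η‖ * ‖q.coeff (l + 1)‖) * r ^ (l + 1) := by gcongr
          _ = _ := by simp only [Nat.add_sub_cancel]; ring
    calc _ ≤ ∑ l ∈ range m, (‖η‖ * (‖q.coeff l‖ * r ^ l)
          + (if l = 0 then 0 else r * (‖q.coeff (l - 1)‖ * r ^ (l - 1)))) :=
          Finset.sum_le_sum fun l _ => h1 l
      _ = ‖η‖ * ∑ l ∈ range m, (‖q.coeff l‖ * r ^ l)
          + ∑ l ∈ range m, (if l = 0 then 0 else r * (‖q.coeff (l - 1)‖ * r ^ (l - 1))) := by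
          rw [Finset.sum_add_distrib, Finset.mul_sum]
      _ ≤ ‖η‖ * (M.map (fun η => r + ‖η‖)).prod + r * (M.map (fun η => r + ‖η‖)).prod := by
          gcongr
          · exact ih m
          · rcases m with _ | m
            · simp only [Finset.range_zero, Finset.sum_empty]; positivity
            · rw [Finset.sum_range_succ']
              simp only [if_neg (Nat.succ_ne_zero _), Nat.add_sub_cancel, if_true, add_zero]
              rw [← Finset.mul_sum]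
              gcongr
              exact ih m
      _ = _ := by ring

theorem coeff_le_of_splits (p : ℂ[X]) {r : ℝ} (hr : 0 ≤ r) (l : ℕ) :
    ‖p.coeff l‖ * r ^ l ≤ ‖p.leadingCoeff‖ * (p.roots.map (fun η => r + ‖η‖)).prod := by
  have hsp : p.Splits := IsAlgClosed.splits p
  have h1 : p = C p.leadingCoeff * (p.roots.map (fun η => X - C η)).prod :=
    hsp.eq_prod_roots
  have h2 := sum_coeff_prod_le p.roots hr (l + 1)
  rw [Finset.sum_range_succ] at h2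
  have h3 : 0 ≤ ∑ l ∈ range l, ‖(p.roots.map (fun η => X - C η)).prod.coeff l‖ * r ^ l :=
    Finset.sum_nonneg fun _ _ => by positivity
  calc ‖p.coeff l‖ * r ^ l = ‖p.leadingCoeff‖ *
        (‖(p.roots.map (fun η => X - C η)).prod.coeff l‖ * r ^ l) := by
        conv_lhs => rw [h1]
        rw [coeff_C_mul, norm_mul]; ring
    _ ≤ _ := by gcongr; linarith

theorem norm_eval_ge (p : ℂ[X]) (t : ℂ) :
    ‖p.leadingCoeff‖ * (p.roots.map (fun η => |‖t‖ - ‖η‖|)).prod ≤ ‖p.eval t‖ := by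
  have hsp : p.Splits := IsAlgClosed.splits p
  have h1 : p = C p.leadingCoeff * (p.roots.map (fun η => X - C η)).prod :=
    hsp.eq_prod_roots
  have h2 : ∀ M : Multiset ℂ, (M.map (fun η => |‖t‖ - ‖η‖|)).prod
      ≤ ‖(M.map (fun η => X - C η)).prod.eval t‖ := by
    intro M
    induction M using Multiset.induction_on with
    | empty => simp
    | cons η M ih =>
      rw [Multiset.map_cons, Multiset.prod_cons, Multiset.map_cons, Multiset.prod_cons,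
        eval_mul, norm_mul]
      refine mul_le_mul ?_ ih ?_ (norm_nonneg _)
      · simp only [eval_sub, eval_X, eval_C]
        exact abs_norm_sub_norm_le t η
      · refine Multiset.prod_nonneg ?_
        intro a ha
        rw [Multiset.mem_map] at ha
        obtain ⟨b, _, rfl⟩ := ha
        positivity
  calc _ ≤ ‖p.leadingCoeff‖ * ‖(p.roots.map (fun η => X - C η)).prod.eval t‖ := by
        gcongr; exact h2 _
    _ = ‖p.eval t‖ := by
        conv_rhs => rw [h1]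
        rw [eval_mul, eval_C, norm_mul]

theorem NN_eval (B : Finset ι) (t : ℂ) : (NN α β B).eval t = ∏ a ∈ B, (α a * t + β a) := by
  rw [NN, eval_prod]; exact Finset.prod_congr rfl fun a _ => LL_eval a t

theorem exists_circle : ∃ K0 : ℝ, 1 ≤ K0 ∧ ∀ (ι : Type) [DecidableEq ι] (α β : ι → ℂ)
    (p : ℂ[X]) (K : ℕ) (_ : p.natDegree ≤ K) (B : Finset ι)
    (_ : ∀ a ∈ B, ‖α a‖ + ‖β a‖ = 1) (_ : ∀ a ∈ B, α a ≠ 0) (r : ℝ) (_ : 0 < r) (_ : r ≤ 1)
    (T : Finset ℝ) (n : ℕ) (_ : 1 ≤ n) (_ : T.card ≤ n),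
    ∃ ϱ ∈ Set.Icc (r / 4) (r / 2), (∀ t : ℂ, ‖t‖ = ϱ → ∀ l,
      ‖p.coeff l‖ * r ^ l * r ^ B.card ≤ K0 ^ (K + B.card) * (‖p.eval t‖ * ‖(NN α β B).eval t‖)) ∧
      ∀ s ∈ T, r / (64 * n) ≤ |ϱ - s| := by
  obtain ⟨K0, hK0, h⟩ := Pool.Agent.Helper43.ES.exists_radius
  refine ⟨K0, hK0, ?_⟩
  intro ι _ α β p K hpK B hB hBα r hr hr1 T n hn hT
  set M : Multiset ℝ := p.roots.map (fun η => ‖η‖) + B.val.map (fun a => ‖β a‖ / ‖α a‖) with hM
  obtain ⟨ϱ, hϱ, h1, h2⟩ := h r hr M (by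
    intro x hx
    rw [hM, Multiset.mem_add, Multiset.mem_map, Multiset.mem_map] at hx
    rcases hx with ⟨b, _, rfl⟩ | ⟨b, _, rfl⟩
    · positivity
    · positivity) T n hn hT
  refine ⟨ϱ, hϱ, ?_, h2⟩
  intro t ht l
  have hcard : M.card ≤ K + B.card := by
    rw [hM, Multiset.card_add, Multiset.card_map, Multiset.card_map]
    have := Polynomial.card_roots' p
    have h3 : Multiset.card B.val = B.card := rfl
    omega
  have hpow : K0 ^ M.card ≤ K0 ^ (K + B.card) := pow_le_pow_right₀ hK0 hcard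
  have e1 : (M.map (fun x => r + x)).prod = (p.roots.map (fun η => r + ‖η‖)).prod *
      ∏ a ∈ B, (r + ‖β a‖ / ‖α a‖) := by
    rw [hM, Multiset.map_add, Multiset.prod_add, Multiset.map_map, Multiset.map_map]
    rfl
  have e2 : (M.map (fun x => |ϱ - x|)).prod = (p.roots.map (fun η => |ϱ - ‖η‖|)).prod *
      ∏ a ∈ B, |ϱ - ‖β a‖ / ‖α a‖| := by
    rw [hM, Multiset.map_add, Multiset.prod_add, Multiset.map_map, Multiset.map_map]
    rfl
  rw [e1, e2] at h1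
  have hr0 : 0 ≤ r := hr.le
  have c1 := coeff_le_of_splits p hr0 l
  have c2 : r ^ B.card ≤ ∏ a ∈ B, (‖α a‖ * (r + ‖β a‖ / ‖α a‖)) := by
    rw [← Finset.prod_const]
    refine Finset.prod_le_prod (fun _ _ => hr0) fun a ha => ?_
    have ha0 : 0 < ‖α a‖ := norm_pos_iff.2 (hBα a ha)
    have : ‖α a‖ * (r + ‖β a‖ / ‖α a‖) = ‖α a‖ * r + ‖β a‖ := by field_simp
    rw [this]
    nlinarith [hB a ha, norm_nonneg (β a)]
  have c3 := norm_eval_ge p t
  rw [ht] at c3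
  have c4 : ∏ a ∈ B, (‖α a‖ * |ϱ - ‖β a‖ / ‖α a‖|) ≤ ‖(NN α β B).eval t‖ := by
    rw [NN_eval, norm_prod]
    refine Finset.prod_le_prod (fun _ _ => by positivity) fun a ha => ?_
    have ha0 : 0 < ‖α a‖ := norm_pos_iff.2 (hBα a ha)
    have : ‖α a‖ * |ϱ - ‖β a‖ / ‖α a‖| = |‖α a * t‖ - ‖-β a‖| := by
      rw [norm_mul, norm_neg, ht]
      rw [← abs_of_pos ha0, ← abs_mul, abs_of_pos ha0]
      congr 1; field_simp
    rw [this]
    have h5 := abs_norm_sub_norm_le (α a * t) (-β a)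
    rwa [sub_neg_eq_add] at h5
  have n1 : 0 ≤ (p.roots.map (fun η => |ϱ - ‖η‖|)).prod := by
    refine Multiset.prod_nonneg ?_
    intro a ha
    rw [Multiset.mem_map] at ha
    obtain ⟨b, _, rfl⟩ := ha
    positivity
  have n2 : 0 ≤ (p.roots.map (fun η => r + ‖η‖)).prod := by
    refine Multiset.prod_nonneg ?_
    intro a ha
    rw [Multiset.mem_map] at ha
    obtain ⟨b, _, rfl⟩ := ha
    positivity
  have n3 : 0 ≤ ∏ a ∈ B, |ϱ - ‖β a‖ / ‖α a‖| := Finset.prod_nonneg fun _ _ => abs_nonneg _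
  have n4 : 0 ≤ ∏ a ∈ B, ‖α a‖ := Finset.prod_nonneg fun _ _ => norm_nonneg _
  calc ‖p.coeff l‖ * r ^ l * r ^ B.card
      ≤ (‖p.leadingCoeff‖ * (p.roots.map (fun η => r + ‖η‖)).prod) *
        ∏ a ∈ B, (‖α a‖ * (r + ‖β a‖ / ‖α a‖)) := by
        refine mul_le_mul c1 c2 (by positivity) (by positivity)
    _ = ‖p.leadingCoeff‖ * (∏ a ∈ B, ‖α a‖) * ((p.roots.map (fun η => r + ‖η‖)).prod *
        ∏ a ∈ B, (r + ‖β a‖ / ‖α a‖)) := by rw [Finset.prod_mul_distrib]; ring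
    _ ≤ ‖p.leadingCoeff‖ * (∏ a ∈ B, ‖α a‖) * (K0 ^ M.card *
        ((p.roots.map (fun η => |ϱ - ‖η‖|)).prod * ∏ a ∈ B, |ϱ - ‖β a‖ / ‖α a‖|)) := by
        gcongr
    _ ≤ ‖p.leadingCoeff‖ * (∏ a ∈ B, ‖α a‖) * (K0 ^ (K + B.card) *
        ((p.roots.map (fun η => |ϱ - ‖η‖|)).prod * ∏ a ∈ B, |ϱ - ‖β a‖ / ‖α a‖|)) := by
        gcongr
    _ = K0 ^ (K + B.card) * ((‖p.leadingCoeff‖ * (p.roots.map (fun η => |ϱ - ‖η‖|)).prod) *
        ∏ a ∈ B, (‖α a‖ * |ϱ - ‖β a‖ / ‖α a‖|)) := by rw [Finset.prod_mul_distrib]; ring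
    _ ≤ _ := by
        gcongr


/-- the bound of `M_bound` with `δ0 = r / (128 n)` -/
noncomputable def MB (n b : ℕ) (ω s τ1 τ3 lam r : ℝ) : ℝ :=
  b * (n * (2 ^ b * ω / s + τ1 / s + τ1 + τ3 + 2 ^ (b + 2) * (τ1 + s))) / lam
        + n * (2 ^ b * ω / (r / (128 * n)))

theorem core_winding : ∃ K0 : ℝ, 1 ≤ K0 ∧ ∀ (ι : Type) [DecidableEq ι] (α β : ι → ℂ)
    (A : Finset ι) (_ : ∀ i ∈ A, ‖α i‖ + ‖β i‖ = 1)
    (_ : ∀ i ∈ A, α i ≠ 0) (K : ℕ) (_ : K ≤ A.card) (_ : 1 ≤ A.card)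
    (B : Finset ι) (_ : ∀ a ∈ B, ‖α a‖ + ‖β a‖ = 1) (_ : ∀ a ∈ B, α a ≠ 0)
    (ω s τ1 τ3 lam r : ℝ) (_ : 0 ≤ ω) (_ : 0 < s) (_ : 0 ≤ τ1) (_ : 0 ≤ τ3)
    (_ : 0 < lam) (_ : 0 < r) (_ : r ≤ 1)
    (_ : ∀ i ∈ A, ‖EE α β (A.erase i) K‖ * ∏ a ∈ B, ‖br α β i a‖ ≤ ω)
    (G : Finset ι) (_ : G ⊆ A) (_ : G.card = B.card)
    (_ : ∀ g ∈ G, lam ≤ ∏ g' ∈ G.erase g, ‖br α β g g'‖)
    (_ : ∀ g ∈ G, ‖EE α β (A.erase g) K‖ ≤ τ1)
    (_ : ∀ g ∈ G, ∀ i ∈ A, i ≠ g → ‖br α β i g‖ < s → ‖EE α β ((A.erase g).erase i) K‖ ≤ τ3)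
    (_ : K + 1 ≤ (A.filter (fun i => r * ‖α i‖ ≤ ‖β i‖)).card)
    (j : ℕ) (_ : j ≤ K)
    (_ : K0 ^ (K + B.card) * MB A.card B.card ω s τ1 τ3 lam r
      < ‖EE α β A j‖ * r ^ (K - j) * r ^ B.card), False := by
  obtain ⟨K0, hK0, h⟩ := exists_circle
  refine ⟨K0, hK0, ?_⟩
  intro ι _ α β A hA hα K hK hn B hB hBα ω s τ1 τ3 lam r hω0 hs hτ1 hτ3 hlam hr hr1 hω G hGA hGB hG
    h1 h3 htop j hj hbig
  set n := A.card with hn'
  have hn0 : (0 : ℝ) < n := by exact_mod_cast hn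
  set p := pp α β A K with hp
  obtain ⟨ϱ, hϱ, hc1, hc2⟩ := h ι α β p K (pp_natDegree_le A K) B hB hBα r hr hr1
    (A.image (fun i => ‖β i‖ / ‖α i‖)) n hn Finset.card_image_le
  have hϱ0 : 0 < ϱ := by have := hϱ.1; linarith
  have hϱ1 : ϱ ≤ 1 := by have := hϱ.2; linarith
  have hK0' : 0 < K0 := by linarith
  set δ0 : ℝ := r / (128 * n) with hδ0
  have hδ0' : 0 < δ0 := by positivity
  have hLL : ∀ t : ℂ, ‖t‖ = ϱ → ∀ i ∈ A, δ0 ≤ ‖α i * t + β i‖ := by
    intro t ht i hi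
    have ha0 : 0 < ‖α i‖ := norm_pos_iff.2 (hα i hi)
    have hsi := hc2 (‖β i‖ / ‖α i‖) (Finset.mem_image_of_mem _ hi)
    have e1 : ‖α i‖ * |ϱ - ‖β i‖ / ‖α i‖| ≤ ‖α i * t + β i‖ := by
      have : ‖α i‖ * |ϱ - ‖β i‖ / ‖α i‖| = |‖α i * t‖ - ‖-β i‖| := by
        rw [norm_mul, norm_neg, ht]
        rw [← abs_of_pos ha0, ← abs_mul, abs_of_pos ha0]
        congr 1; field_simp
      rw [this]
      have h5 := abs_norm_sub_norm_le (α i * t) (-β i)
      rwa [sub_neg_eq_add] at h5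
    rcases le_total (1 / 2 : ℝ) ‖α i‖ with hh | hh
    · refine le_trans ?_ e1
      calc δ0 = 1 / 2 * (r / (64 * n)) := by rw [hδ0]; field_simp; norm_num
        _ ≤ ‖α i‖ * |ϱ - ‖β i‖ / ‖α i‖| := by gcongr
    · have h6 : ‖β i‖ = 1 - ‖α i‖ := by linarith [hA i hi]
      have h7 : ‖β i‖ - ‖α i * t‖ ≤ ‖α i * t + β i‖ := by
        have := norm_sub_norm_le (β i) (-(α i * t))
        rw [norm_neg, sub_neg_eq_add, add_comm (β i)] at this
        exact this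
      rw [norm_mul, ht] at h7
      have h8 : ϱ ≤ 1 / 2 := by have := hϱ.2; linarith
      have h9 : δ0 ≤ 1 / 128 := by
        rw [hδ0, div_le_div_iff₀ (by positivity) (by norm_num)]
        have : (1 : ℝ) ≤ n := by exact_mod_cast hn
        nlinarith
      nlinarith
  have hMB : ∀ t : ℂ, ‖t‖ = ϱ →
      ‖(NN α β B).eval t‖ * ‖∑ i ∈ A, (α i * β i * EE α β (A.erase i) K) / (α i * t + β i)‖
        ≤ MB n B.card ω s τ1 τ3 lam r := by
    intro t ht
    exact M_bound α β A hA hα K hK B hB ω s τ1 τ3 lam δ0 hω0 hs hτ1 hτ3 hlam hδ0' hω G hGA hGB hG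
      h1 h3 t (ht.le.trans hϱ1) (hLL t ht)
  have hG' : ∀ t : ℂ, ‖t‖ = ϱ →
      ‖∑ i ∈ A, (α i * β i * EE α β (A.erase i) K) / (α i * t + β i)‖ < ‖p.eval t‖ := by
    intro t ht
    have e1 := hMB t ht
    have e2 := hc1 t ht (K - j)
    rw [hp, pp_coeff A K j hj, ← hp] at e2
    have e3 : K0 ^ (K + B.card) * MB n B.card ω s τ1 τ3 lam r
        < K0 ^ (K + B.card) * (‖p.eval t‖ * ‖(NN α β B).eval t‖) := lt_of_lt_of_le hbig e2
    have e4 : MB n B.card ω s τ1 τ3 lam r < ‖p.eval t‖ * ‖(NN α β B).eval t‖ :=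
      lt_of_mul_lt_mul_left e3 (by positivity)
    have e5 := lt_of_le_of_lt e1 e4
    rw [mul_comm (‖p.eval t‖)] at e5
    exact lt_of_mul_lt_mul_left e5 (norm_nonneg _)
  have hp0 : p ≠ 0 := by
    intro h0
    have := hG' (ϱ : ℂ) (by simp [abs_of_pos hϱ0])
    rw [h0, eval_zero, norm_zero] at this
    exact absurd this (not_lt.2 (norm_nonneg _))
  have hLne : ∀ i ∈ A, ∀ t : ℂ, ‖t‖ = ϱ → α i * t + β i ≠ 0 := by
    intro i hi t ht h0
    have := hLL t ht i hi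
    rw [h0, norm_zero] at this
    linarith
  have hw := Pool.Agent.Helper66.ESWind.winding α β A hα p hp0 (n - K) ϱ hϱ0 hLne
    (fun t => ∑ i ∈ A, (α i * β i * EE α β (A.erase i) K) / (α i * t + β i)) (by
      intro t ht
      have := star (α := α) (β := β) A K t (fun i hi => hLne i hi t ht)
      rw [Nat.cast_sub hK]
      exact this) hG'
  have hdis : Disjoint (A.filter (fun i => ‖β i‖ < ϱ * ‖α i‖))
      (A.filter (fun i => r * ‖α i‖ ≤ ‖β i‖)) := by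
    rw [Finset.disjoint_filter]
    intro i hi h6 h7
    have ha0 : 0 < ‖α i‖ := norm_pos_iff.2 (hα i hi)
    have := hϱ.2
    nlinarith
  have hcard := Finset.card_union_of_disjoint hdis
  have hsub : (A.filter (fun i => ‖β i‖ < ϱ * ‖α i‖)) ∪ (A.filter (fun i => r * ‖α i‖ ≤ ‖β i‖)) ⊆ A :=
    Finset.union_subset (Finset.filter_subset _ _) (Finset.filter_subset _ _)
  have := Finset.card_le_card hsub
  omega

end Pool.Agent.Helper94.ES
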