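import Pool.Agent.Helper94.ES.Lower

/-!
# Lower bounds for elementary symmetric coefficients, threshold selection
-/

open Finset Polynomial

namespace Pool.Agent.Helper94.ES

set_option linter.unusedSectionVars false

variable {ι : Type*} [DecidableEq ι] {α β : ι → ℂ}

theorem exists_rstar (A : Finset ι) (s : ι → ℝ) (K : ℕ) (lo : ℝ)
    (h : K + 1 ≤ (A.filter (fun i => lo ≤ s i)).card) :
    ∃ r, lo ≤ r ∧ K + 1 ≤ (A.filter (fun i => r ≤ s i)).card ∧
      (A.filter (fun i => r < s i)).card ≤ K := by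
  classical
  set C : Finset ℝ := (A.image s).filter (fun x => K + 1 ≤ (A.filter (fun i => x ≤ s i)).card)
    with hC
  have key : ∀ lo' : ℝ, ∀ U : Finset ι, U ⊆ A → (∀ i ∈ U, lo' ≤ s i) → K + 1 ≤ U.card →
      ∃ x ∈ C, lo' ≤ x ∧ ∃ i ∈ U, x = s i := by
    intro lo' U hU hlo hcard
    have hne : U.Nonempty := Finset.card_pos.1 (by omega)
    obtain ⟨i, hi, hmin⟩ := Finset.exists_min_image U s hne
    refine ⟨s i, ?_, hlo i hi, i, hi, rfl⟩
    rw [hC, Finset.mem_filter]
    refine ⟨Finset.mem_image_of_mem _ (hU hi), hcard.trans (Finset.card_le_card ?_)⟩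
    intro j hj
    rw [Finset.mem_filter]
    exact ⟨hU hj, hmin j hj⟩
  obtain ⟨x0, hx0, hlo0, _⟩ := key lo _ (Finset.filter_subset _ A)
    (fun i hi => (Finset.mem_filter.1 hi).2) h
  have hCne : C.Nonempty := ⟨x0, hx0⟩
  refine ⟨C.max' hCne, hlo0.trans (Finset.le_max' _ _ hx0), ?_, ?_⟩
  · have := Finset.max'_mem C hCne
    exact (Finset.mem_filter.1 this).2
  · by_contra hcon
    push Not at hcon
    obtain ⟨x, hx, hlt, i, hi, rfl⟩ := key (C.max' hCne) _ (Finset.filter_subset _ A)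
      (fun i hi => (Finset.mem_filter.1 hi).2.le) hcon
    have h1 := Finset.le_max' C _ hx
    have h2 := (Finset.mem_filter.1 hi).2
    linarith

theorem exp_neg_le_one_sub {y : ℝ} (h0 : 0 ≤ y) (h1 : y ≤ 1) : Real.exp (-y) ≤ 1 - y / 2 := by
  have hconv : ConvexOn ℝ Set.univ Real.exp := convexOn_exp
  have h4 := hconv.2 (Set.mem_univ (0 : ℝ)) (Set.mem_univ (-1 : ℝ))
    (show 0 ≤ 1 - y by linarith) h0 (by ring)
  simp only [smul_eq_mul, mul_zero, zero_add, mul_neg, mul_one, Real.exp_zero] at h4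
  have h5 : Real.exp (-1) ≤ 1 / 2 := by
    rw [Real.exp_neg, ← one_div]
    apply one_div_le_one_div_of_le (by norm_num)
    have := Real.add_one_le_exp (1 : ℝ)
    linarith
  nlinarith

theorem exp_neg_le_one_sub_half {s : ℝ} (h0 : 0 ≤ s) (h1 : s ≤ 1) :
    Real.exp (-(2 * s)) ≤ 1 / (1 + s) - s / (1 + s) * (1 / 2) := by
  have e1 : 1 / (1 + s) - s / (1 + s) * (1 / 2) = (1 - s / 2) / (1 + s) := by
    field_simp
  rw [e1, le_div_iff₀ (by linarith)]
  have h2 : 1 + s ≤ Real.exp s := by have := Real.add_one_le_exp s; linarith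
  have h3 : Real.exp (-(2 * s)) * (1 + s) ≤ Real.exp (-s) := by
    calc _ ≤ Real.exp (-(2 * s)) * Real.exp s := by gcongr
      _ = Real.exp (-s) := by rw [← Real.exp_add]; congr 1; ring
  exact h3.trans (exp_neg_le_one_sub h0 h1)

/-- first lower bound -/
theorem LB1 (A : Finset ι) (s : ι → ℝ) (hs : ∀ i ∈ A, 0 ≤ s i)
    (hα : ∀ i ∈ A, ‖α i‖ = 1 / (1 + s i)) (hβ : ∀ i ∈ A, ‖β i‖ = s i / (1 + s i))
    (K : ℕ) (htop : (A.filter (fun i => 1 < s i)).card ≤ K) (S : ℝ)
    (hS : ∑ i ∈ A.filter (fun i => ¬ 1 < s i), s i ≤ S) (E : ℝ)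
    (hE : ∀ j ≤ K, ‖EE α β A j‖ ≤ E) :
    (1 / 4 : ℝ) ^ K * Real.exp (-(2 * S)) ≤ 2 * E := by
  set top := A.filter (fun i => 1 < s i) with htop'
  have hsd : A \ top = A.filter (fun i => ¬ 1 < s i) := by
    ext i; simp only [htop', Finset.mem_sdiff, Finset.mem_filter]; tauto
  have hE0 : 0 ≤ E := (norm_nonneg _).trans (hE 0 (Nat.zero_le _))
  have hrest : ∀ i ∈ A \ top, Real.exp (-(2 * s i)) ≤ ‖α i‖ - ‖β i‖ * (1 / 2) := by
    intro i hi
    rw [hsd, Finset.mem_filter] at hi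
    rw [hα i hi.1, hβ i hi.1]
    exact exp_neg_le_one_sub_half (hs i hi.1) (not_lt.1 hi.2)
  have h := lower_bound (α := α) (β := β) A top (Finset.filter_subset _ _)
    (r := 1 / 2) (by norm_num) (fun i hi => (Real.exp_pos _).le.trans (hrest i hi))
  have h1 : (1 / 2 : ℝ) ^ top.card ≤ ∏ i ∈ top, ‖β i‖ := by
    rw [← Finset.prod_const]
    refine Finset.prod_le_prod (fun _ _ => by norm_num) fun i hi => ?_
    rw [htop', Finset.mem_filter] at hi
    rw [hβ i hi.1, div_le_div_iff₀ (by norm_num) (by linarith [hi.2])]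
    linarith [hi.2]
  have h2 : Real.exp (-(2 * S)) ≤ ∏ i ∈ A \ top, (‖α i‖ - ‖β i‖ * (1 / 2)) := by
    calc Real.exp (-(2 * S)) ≤ Real.exp (∑ i ∈ A \ top, -(2 * s i)) := by
          apply Real.exp_le_exp.2
          rw [Finset.sum_neg_distrib, ← Finset.mul_sum, hsd]
          linarith
      _ = ∏ i ∈ A \ top, Real.exp (-(2 * s i)) := Real.exp_sum _ _
      _ ≤ _ := Finset.prod_le_prod (fun _ _ => (Real.exp_pos _).le) hrest
  have h3 : ∑ j ∈ range (top.card + 1), ‖EE α β A j‖ * (1 / 2 : ℝ) ^ j ≤ 2 * E := by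
    calc _ ≤ ∑ j ∈ range (top.card + 1), E * (1 / 2 : ℝ) ^ j := by
          refine Finset.sum_le_sum fun j hj => ?_
          rw [Finset.mem_range] at hj
          gcongr
          exact hE j (by omega)
      _ = E * ∑ j ∈ range (top.card + 1), (1 / 2 : ℝ) ^ j := by rw [Finset.mul_sum]
      _ ≤ E * 2 := by
          gcongr
          exact sum_geometric_two_le _
      _ = _ := by ring
  have h4 : (1 / 4 : ℝ) ^ K ≤ (1 / 2 : ℝ) ^ top.card * (1 / 2 : ℝ) ^ top.card := by
    rw [← mul_pow]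
    norm_num
    exact pow_le_pow_of_le_one (by norm_num) (by norm_num) htop
  calc (1 / 4 : ℝ) ^ K * Real.exp (-(2 * S))
      ≤ ((1 / 2 : ℝ) ^ top.card * (1 / 2 : ℝ) ^ top.card) *
        ∏ i ∈ A \ top, (‖α i‖ - ‖β i‖ * (1 / 2)) := by gcongr
    _ ≤ ((1 / 2 : ℝ) ^ top.card * ∏ i ∈ top, ‖β i‖) *
        ∏ i ∈ A \ top, (‖α i‖ - ‖β i‖ * (1 / 2)) := by
        gcongr
        exact (Real.exp_pos _).le.trans h2
    _ ≤ _ := h.trans h3

/-- second lower bound -/
theorem LB2 (A : Finset ι) (s : ι → ℝ) (hs : ∀ i ∈ A, 0 ≤ s i)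
    (hα : ∀ i ∈ A, ‖α i‖ = 1 / (1 + s i)) (hβ : ∀ i ∈ A, ‖β i‖ = s i / (1 + s i))
    (K : ℕ) (r x : ℝ) (hr : 0 < r) (hr1 : r ≤ 1) (hx : 0 < x) (hx1 : x ≤ 1 / 2)
    (htop : (A.filter (fun i => r < s i)).card ≤ K) (g : ℕ)
    (hg : g ≤ (A.filter (fun i => r < s i ∧ 1 ≤ s i)).card) (S : ℝ)
    (hS : ∑ i ∈ A.filter (fun i => ¬ r < s i), s i ≤ S) :
    ∃ j ≤ K, (x / 2) ^ K / (K + 1) * r ^ (K - g) * Real.exp (-(2 * x * A.card + S))
      ≤ ‖EE α β A j‖ * r ^ (K - j) := by
  set top := A.filter (fun i => r < s i) with htop'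
  set ρ : ℝ := x / r with hρ
  have hρ0 : 0 < ρ := by positivity
  have hsd : A \ top = A.filter (fun i => ¬ r < s i) := by
    ext i; simp only [htop', Finset.mem_sdiff, Finset.mem_filter]; tauto
  have hrest : ∀ i ∈ A \ top, Real.exp (-(2 * x + s i)) ≤ ‖α i‖ - ‖β i‖ * ρ := by
    intro i hi
    rw [hsd, Finset.mem_filter] at hi
    have h0 := hs i hi.1
    have h1 := not_lt.1 hi.2
    rw [hα i hi.1, hβ i hi.1]
    have e1 : 1 / (1 + s i) - s i / (1 + s i) * ρ = (1 - s i * ρ) / (1 + s i) := by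
      field_simp
    have e2 : s i * ρ ≤ x := by
      rw [hρ, mul_div_assoc', div_le_iff₀ hr]; nlinarith
    rw [e1, le_div_iff₀ (by linarith)]
    have h2 : 1 + s i ≤ Real.exp (s i) := by have := Real.add_one_le_exp (s i); linarith
    calc Real.exp (-(2 * x + s i)) * (1 + s i) ≤ Real.exp (-(2 * x + s i)) * Real.exp (s i) := by
          gcongr
      _ = Real.exp (-(2 * x)) := by rw [← Real.exp_add]; congr 1; ring
      _ ≤ 1 - x := by
          have := exp_neg_le_one_sub (y := 2 * x) (by linarith) (by linarith)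
          linarith
      _ ≤ 1 - s i * ρ := by linarith
  have h := lower_bound (α := α) (β := β) A top (Finset.filter_subset _ _)
    (r := ρ) hρ0.le (fun i hi => (Real.exp_pos _).le.trans (hrest i hi))
  have h1 : (r ^ (top.card - g)) * (1 / 2 : ℝ) ^ top.card ≤ ∏ i ∈ top, ‖β i‖ := by
    set big := A.filter (fun i => r < s i ∧ 1 ≤ s i) with hbig
    have hbt : big ⊆ top := by
      intro i hi
      rw [hbig, Finset.mem_filter] at hi
      rw [htop', Finset.mem_filter]
      exact ⟨hi.1, hi.2.1⟩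
    rw [← Finset.prod_sdiff hbt]
    have c1 : r ^ (top \ big).card * (1 / 2 : ℝ) ^ (top \ big).card ≤ ∏ i ∈ top \ big, ‖β i‖ := by
      rw [← mul_pow, ← Finset.prod_const]
      refine Finset.prod_le_prod (fun _ _ => by positivity) fun i hi => ?_
      have hi' := (Finset.mem_sdiff.1 hi).1
      rw [htop', Finset.mem_filter] at hi'
      have h0 := hs i hi'.1
      rw [hβ i hi'.1, le_div_iff₀ (by linarith)]
      nlinarith [hi'.2]
    have c2 : (1 / 2 : ℝ) ^ big.card ≤ ∏ i ∈ big, ‖β i‖ := by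
      rw [← Finset.prod_const]
      refine Finset.prod_le_prod (fun _ _ => by positivity) fun i hi => ?_
      rw [hbig, Finset.mem_filter] at hi
      have h0 := hs i hi.1
      rw [hβ i hi.1, le_div_iff₀ (by linarith)]
      nlinarith [hi.2.2]
    have c3 : (top \ big).card + big.card = top.card := Finset.card_sdiff_add_card_eq_card hbt
    calc _ ≤ r ^ (top \ big).card * (1 / 2 : ℝ) ^ top.card := by
          gcongr ?_ * _
          exact pow_le_pow_of_le_one hr.le hr1 (by omega)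
      _ = (r ^ (top \ big).card * (1 / 2 : ℝ) ^ (top \ big).card) * (1 / 2 : ℝ) ^ big.card := by
          rw [mul_assoc, ← pow_add, c3]
      _ ≤ _ := mul_le_mul c1 c2 (by positivity) (Finset.prod_nonneg fun _ _ => norm_nonneg _)
  have h2 : Real.exp (-(2 * x * A.card + S)) ≤ ∏ i ∈ A \ top, (‖α i‖ - ‖β i‖ * ρ) := by
    calc Real.exp (-(2 * x * A.card + S)) ≤ Real.exp (∑ i ∈ A \ top, -(2 * x + s i)) := by
          apply Real.exp_le_exp.2
          rw [Finset.sum_neg_distrib, Finset.sum_add_distrib, Finset.sum_const, nsmul_eq_mul]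
          have hc : ((A \ top).card : ℝ) ≤ A.card := by
            exact_mod_cast Finset.card_le_card Finset.sdiff_subset
          have : ((A \ top).card : ℝ) * (2 * x) ≤ A.card * (2 * x) := by gcongr
          rw [← hsd] at hS
          linarith
      _ = ∏ i ∈ A \ top, Real.exp (-(2 * x + s i)) := Real.exp_sum _ _
      _ ≤ _ := Finset.prod_le_prod (fun _ _ => (Real.exp_pos _).le) hrest
  by_contra hcon
  push Not at hcon
  set e := Real.exp (-(2 * x * A.card + S)) with he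
  have he0 : 0 < e := Real.exp_pos _
  set u := top.card with hu
  have hgu : g ≤ u := hg.trans (Finset.card_le_card (by
    intro i hi
    rw [Finset.mem_filter] at hi
    rw [htop', Finset.mem_filter]
    exact ⟨hi.1, hi.2.1⟩))
  -- each term
  have h5 : ∀ j ∈ range (u + 1), ‖EE α β A j‖ * ρ ^ j * r ^ K
      < (x / 2) ^ K / (K + 1) * r ^ (K - g) * e := by
    intro j hj
    rw [Finset.mem_range] at hj
    have hjK : j ≤ K := by omega
    calc ‖EE α β A j‖ * ρ ^ j * r ^ K = (‖EE α β A j‖ * r ^ (K - j)) * x ^ j := by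
          rw [hρ, div_pow]
          have : r ^ K = r ^ (K - j) * r ^ j := by rw [← pow_add]; congr 1; omega
          rw [this]; field_simp
      _ ≤ (‖EE α β A j‖ * r ^ (K - j)) * 1 := by
          gcongr
          exact pow_le_one₀ hx.le (by linarith)
      _ < _ := by rw [mul_one]; exact hcon j hjK
  have h6 : (∑ j ∈ range (u + 1), ‖EE α β A j‖ * ρ ^ j) * r ^ K
      < (u + 1) * ((x / 2) ^ K / (K + 1) * r ^ (K - g) * e) := by
    rw [Finset.sum_mul]
    calc _ < ∑ j ∈ range (u + 1), (x / 2) ^ K / (K + 1) * r ^ (K - g) * e :=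
          Finset.sum_lt_sum_of_nonempty ⟨0, by simp⟩ h5
      _ = _ := by rw [Finset.sum_const, Finset.card_range, nsmul_eq_mul]; push_cast; ring
  have h7 : (u + 1 : ℝ) * ((x / 2) ^ K / (K + 1) * r ^ (K - g) * e)
      ≤ (x / 2) ^ K * r ^ (K - g) * e := by
    have : (u + 1 : ℝ) ≤ K + 1 := by exact_mod_cast Nat.succ_le_succ htop
    have hK0 : (0 : ℝ) < K + 1 := by positivity
    calc (u + 1 : ℝ) * ((x / 2) ^ K / (K + 1) * r ^ (K - g) * e)
        = ((u + 1) / (K + 1)) * ((x / 2) ^ K * r ^ (K - g) * e) := by ring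
      _ ≤ 1 * ((x / 2) ^ K * r ^ (K - g) * e) := by
          gcongr
          rw [div_le_one hK0]; exact this
      _ = _ := one_mul _
  have h8 : (x / 2) ^ K * r ^ (K - g) * e ≤ (∑ j ∈ range (u + 1), ‖EE α β A j‖ * ρ ^ j) * r ^ K := by
    calc (x / 2) ^ K * r ^ (K - g) * e
        ≤ (x / 2) ^ u * r ^ (K - g) * e := by
          have : (x / 2) ^ K ≤ (x / 2) ^ u :=
            pow_le_pow_of_le_one (by positivity) (by linarith) htop
          gcongr
      _ = (ρ ^ u * ((r ^ (u - g)) * (1 / 2 : ℝ) ^ u) * e) * r ^ K := by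
          have hru : r ^ u ≠ 0 := by positivity
          have e1 : ρ ^ u = x ^ u / r ^ u := by rw [hρ, div_pow]
          have e2 : (x / 2) ^ u = x ^ u * (1 / 2) ^ u := by rw [← mul_pow]; congr 1; ring
          have e3 : r ^ (K - g) = r ^ (u - g) * r ^ K / r ^ u := by
            rw [eq_div_iff hru, ← pow_add, ← pow_add]; congr 1; omega
          rw [e1, e2, e3]; ring
      _ ≤ (ρ ^ u * (∏ i ∈ top, ‖β i‖) * ∏ i ∈ A \ top, (‖α i‖ - ‖β i‖ * ρ)) * r ^ K := by
          have hpn : 0 ≤ ∏ i ∈ top, ‖β i‖ := Finset.prod_nonneg fun _ _ => norm_nonneg _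
          gcongr
      _ ≤ _ := by gcongr
  linarith

end Pool.Agent.Helper94.ES
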