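import Pool.Agent.Helper94.ES.Coef

/-!
# Normalised vectors
-/

open Finset Polynomial

namespace Pool.Agent.Helper94.ES

set_option linter.unusedSectionVars false

variable {ι : Type*} [DecidableEq ι]

/-- normalised first coordinate -/
noncomputable def aa (v : ι → ℂ) (ρ : ℝ) (i : ι) : ℂ := ((1 / (1 + ‖v i‖ / ρ) : ℝ) : ℂ)

/-- normalised second coordinate -/
noncomputable def bb (v : ι → ℂ) (ρ : ℝ) (i : ι) : ℂ := (v i / ρ) * aa v ρ i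

variable {v : ι → ℂ} {ρ : ℝ}

theorem norm_aa (hρ : 0 < ρ) (i : ι) : ‖aa v ρ i‖ = 1 / (1 + ‖v i‖ / ρ) := by
  rw [aa, Complex.norm_real, Real.norm_of_nonneg (by positivity)]

theorem norm_bb (hρ : 0 < ρ) (i : ι) : ‖bb v ρ i‖ = (‖v i‖ / ρ) / (1 + ‖v i‖ / ρ) := by
  rw [bb, norm_mul, norm_aa hρ, norm_div, Complex.norm_real, Real.norm_of_nonneg hρ.le]
  ring

theorem norm_aa_bb (hρ : 0 < ρ) (i : ι) : ‖aa v ρ i‖ + ‖bb v ρ i‖ = 1 := by
  rw [norm_aa hρ, norm_bb hρ]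
  have : 0 < 1 + ‖v i‖ / ρ := by positivity
  field_simp

theorem aa_ne_zero (hρ : 0 < ρ) (i : ι) : aa v ρ i ≠ 0 := by
  rw [← norm_pos_iff, norm_aa hρ]; positivity

theorem coeff_prod_one_add (A : Finset ι) (c : ι → ℂ) (k : ℕ) :
    (∏ i ∈ A, (1 + C (c i) * X)).coeff k = ∑ s ∈ A.powersetCard k, ∏ i ∈ s, c i := by
  rw [Finset.prod_one_add, Polynomial.finsetSum_coeff]
  have h1 : ∀ t ∈ A.powerset, (∏ i ∈ t, (C (c i) * X : ℂ[X])).coeff k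
      = if t.card = k then ∏ i ∈ t, c i else 0 := by
    intro t _
    rw [Finset.prod_mul_distrib, Finset.prod_const, ← map_prod, coeff_C_mul, coeff_X_pow]
    split_ifs with h1 h2 h2
    · simp
    · exact absurd h1.symm h2
    · exact absurd h2.symm h1
    · simp
  rw [Finset.sum_congr rfl h1, ← Finset.sum_filter]
  congr 1
  ext t
  simp [Finset.mem_powersetCard]

theorem EE_aa_bb (A : Finset ι) (k : ℕ) (v : ι → ℂ) (ρ : ℝ) :
    EE (aa v ρ) (bb v ρ) A k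
      = (∏ i ∈ A, aa v ρ i) * ((ρ : ℂ)⁻¹ ^ k * ∑ s ∈ A.powersetCard k, ∏ i ∈ s, v i) := by
  unfold EE
  have h1 : ∏ i ∈ A, (C (aa v ρ i) + C (bb v ρ i) * X)
      = C (∏ i ∈ A, aa v ρ i) * ∏ i ∈ A, (1 + C (v i / ρ) * X) := by
    rw [map_prod, ← Finset.prod_mul_distrib]
    refine Finset.prod_congr rfl fun i _ => ?_
    rw [bb, mul_comm (v i / (ρ : ℂ)), C_mul]; ring
  rw [h1, coeff_C_mul, coeff_prod_one_add]
  congr 1
  rw [Finset.mul_sum]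
  apply Finset.sum_congr rfl
  intro s hs
  rw [Finset.mem_powersetCard] at hs
  simp only [div_eq_mul_inv]
  rw [Finset.prod_mul_distrib, Finset.prod_const, hs.2]
  ring

theorem norm_EE_aa_bb_le (hρ : 0 < ρ) (A : Finset ι) (k : ℕ) :
    ‖EE (aa v ρ) (bb v ρ) A k‖ ≤ ‖∑ s ∈ A.powersetCard k, ∏ i ∈ s, v i‖ / ρ ^ k := by
  rw [EE_aa_bb, norm_mul, norm_mul, norm_pow, norm_inv, Complex.norm_real,
    Real.norm_of_nonneg hρ.le, norm_prod]
  have h1 : ∏ i ∈ A, ‖aa v ρ i‖ ≤ 1 := by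
    refine Finset.prod_le_one (fun _ _ => norm_nonneg _) fun i _ => ?_
    have := norm_aa_bb (v := v) hρ i
    linarith [norm_nonneg (bb v ρ i)]
  calc _ ≤ 1 * (ρ⁻¹ ^ k * ‖∑ s ∈ A.powersetCard k, ∏ i ∈ s, v i‖) := by gcongr
    _ = _ := by rw [inv_pow]; ring

theorem norm_br_aa_bb_ge (hρ : 1 ≤ ρ) {R0 θ : ℝ} (hR0 : 0 < R0) (hθ : 0 < θ) {i j : ι}
    (hi : ‖v i‖ ≤ R0) (hj : ‖v j‖ ≤ R0) (hij : θ ≤ ‖v i - v j‖) :
    θ / (ρ * (1 + R0) ^ 2) ≤ ‖br (aa v ρ) (bb v ρ) i j‖ := by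
  have hρ0 : 0 < ρ := by linarith
  have h1 : br (aa v ρ) (bb v ρ) i j = aa v ρ i * aa v ρ j * ((v j - v i) / ρ) := by
    unfold br bb; ring
  have hs : ∀ l, ‖v l‖ ≤ R0 → 1 / (1 + R0) ≤ ‖aa v ρ l‖ := by
    intro l hl
    rw [norm_aa hρ0]
    apply one_div_le_one_div_of_le (by positivity)
    have : ‖v l‖ / ρ ≤ ‖v l‖ := div_le_self (norm_nonneg _) hρ
    linarith
  rw [h1, norm_mul, norm_mul, norm_div, Complex.norm_real, Real.norm_of_nonneg hρ0.le,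
    norm_sub_rev]
  calc θ / (ρ * (1 + R0) ^ 2) = 1 / (1 + R0) * (1 / (1 + R0)) * (θ / ρ) := by
        field_simp
    _ ≤ _ := by
        have a1 := hs i hi
        have a2 := hs j hj
        gcongr

end Pool.Agent.Helper94.ES
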