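import Pool.Agent.Helper94.ES.Numeric
import Pool.Agent.Helper94.ES.LB
import Pool.Agent.Helper94.ES.Norm
import Pool.Agent.Helper86.ES.Count
import Pool.Agent.Helper46.ES.Nodes

/-!
# The deterministic pool theorem
-/

open Finset Polynomial

namespace Pool.Agent.Helper94.ES

set_option linter.unusedSectionVars false

theorem prod_erase_mono {ι : Type*} [DecidableEq ι] (u : ι → ι → ℝ) (S T : Finset ι) (hST : S ⊆ T)
    (h0 : ∀ i ∈ T, ∀ j ∈ T, 0 ≤ u i j) (h1 : ∀ i ∈ T, ∀ j ∈ T, u i j ≤ 1) {a : ι} (ha : a ∈ S) :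
    ∏ b ∈ T.erase a, u a b ≤ ∏ b ∈ S.erase a, u a b := by
  have hsub : S.erase a ⊆ T.erase a := Finset.erase_subset_erase _ hST
  rw [← Finset.prod_sdiff hsub]
  have h2 : ∏ x ∈ T.erase a \ S.erase a, u a x ≤ 1 := by
    refine Finset.prod_le_one (fun i hi => ?_) fun i hi => ?_
    · exact h0 a (hST ha) i (Finset.mem_of_mem_erase (Finset.mem_sdiff.1 hi).1)
    · exact h1 a (hST ha) i (Finset.mem_of_mem_erase (Finset.mem_sdiff.1 hi).1)
  have h3 : 0 ≤ ∏ b ∈ S.erase a, u a b :=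
    Finset.prod_nonneg fun i hi => h0 a (hST ha) i (hST (Finset.mem_of_mem_erase hi))
  calc _ ≤ 1 * ∏ b ∈ S.erase a, u a b := by gcongr
    _ = _ := one_mul _

open Classical in
theorem dt_pool : ∃ K0 : ℝ, 1 ≤ K0 ∧ ∀ (P : Finset ℕ) (v : ℕ → ℂ) (n K : ℕ) (_ : 2 ≤ n)
    (_ : n ≤ P.card) (_ : K + 1 ≤ n)
    (ρ l x η c δ q S r0 β0 : ℝ) (Kc : ℕ) (top B : Finset ℕ)
    (_ : 1 ≤ ρ) (_ : 0 < l) (_ : l ≤ 1 / 10) (_ : 0 < x) (_ : x ≤ 1 / 2) (_ : 0 < η)
    (_ : η ≤ 1 / 132) (_ : 0 < c) (_ : 0 < r0)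
    (_ : (P.card : ℝ) - n ≤ δ * P.card) (_ : (n : ℝ) ≤ q * (P.card - n + 1)) (_ : 0 ≤ q)
    (_ : top ⊆ P) (_ : top.card = K + 1)
    (_ : (P.filter (fun i => ρ < ‖v i‖)).card ≤ K)
    (_ : ((∀ i ∈ top, ρ ≤ ‖v i‖) ∧ ∀ e : ℕ, (e : ℝ) ≤ 3 * η * (K + 1) → l ^ 4 ≤ (r0 / ρ) ^ e) ∨
      (∀ e : ℕ, e ≤ 2 * K → l ^ 4 ≤ (r0 / ρ) ^ e))
    (_ : ∑ i ∈ P.filter (fun i => ‖v i‖ ≤ ρ), ‖v i‖ / ρ ≤ S)
    (_ : l ^ 2 ≤ Real.exp (-(2 * x * n + 2 * S)))
    (_ : B ⊆ P) (_ : B.card = Kc) (_ : 1 ≤ Kc) (_ : 0 ≤ β0)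
    (_ : ∀ i ∈ B, ∀ j ∈ B, i ≠ j → β0 ≤ ‖br (aa v ρ) (bb v ρ) i j‖) (_ : l ^ 64 ≤ β0 ^ Kc)
    (_ : 4 * δ + (2 * q + 130 * (q + q ^ 2)) / Kc ≤ η * c)
    (_ : l ≤ r0 / ρ) (_ : (n : ℝ) ^ 2 * 2 ^ (2 * K + 8) * l ^ 2 ≤ 1)
    (_ : K0 ^ (2 * K) * l ≤ 1) (_ : l ≤ (x / 2) ^ K / (K + 1))
    (𝒯 : Finset (Finset ℕ)) (_ : 𝒯 ⊆ P.powersetCard n)
    (_ : ∀ A ∈ 𝒯, ‖EE (aa v ρ) (bb v ρ) A (K + 1)‖ ≤ l ^ 1024)
    (_ : ∀ A ∈ 𝒯, K + 1 ≤ (A.filter (fun i => r0 ≤ ‖v i‖)).card),
    (𝒯.card : ℝ) ≤ c * (P.card.choose n : ℝ) := by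
  obtain ⟨K0, hK0, hcore⟩ := core_winding
  refine ⟨K0, hK0, ?_⟩
  intro P v n K hn hnP hKn ρ l x η c δ q S r0 β0 Kc top B hρ hl hl1 hx hx1 hη hη1 hc hr0 hδ hq hq0
    htop htopc hP1 hcase hS he hB hBc hKc hβ0 hBsep hκβ hη' hr0l hn2 hK0l hxl 𝒯 h𝒯 h𝒯e h𝒯r
  by_contra hcon
  push Not at hcon
  set α := aa v ρ with hα
  set β := bb v ρ with hβ
  have hρ0 : 0 < ρ := by linarith
  have hnorm : ∀ i, ‖α i‖ + ‖β i‖ = 1 := fun i => norm_aa_bb hρ0 i
  have hα0 : ∀ i, α i ≠ 0 := fun i => aa_ne_zero hρ0 i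
  set u : ℕ → ℕ → ℝ := fun i j => ‖br α β i j‖ with hu
  have hu0 : ∀ i j, 0 ≤ u i j := fun i j => norm_nonneg _
  have hu1 : ∀ i j, u i j ≤ 1 := fun i j => norm_br_le_one (hnorm i).le (hnorm j).le
  have husym : ∀ i j, u i j = u j i := fun i j => by
    simp only [hu]; rw [br_swap, norm_neg]
  have hl1' : l < 1 := by linarith
  have hlle : l ≤ 1 := hl1'.le
  have hpow : ∀ m m' : ℕ, m' ≤ m → l ^ m ≤ l ^ m' := fun m m' h =>
    pow_le_pow_of_le_one hl.le hlle h
  -- nodes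
  obtain ⟨N1, hN1P, hN1a, hN1b, hN1c⟩ := exists_nodes P u (fun i _ j _ => hu0 i j)
    (fun i _ j _ => hu1 i j) (fun i _ j _ => husym i j) (l ^ 64) (by positivity)
    (pow_lt_one₀ hl.le hl1' (by norm_num))
  have hKcN : Kc ≤ 2 * N1.card := by
    have := hN1c B hB β0 hβ0 hBsep (by rw [hBc]; exact hκβ)
    rwa [hBc] at this
  obtain ⟨N2, hN2N, hN2a, hN2c⟩ := exists_subnodes N1 u (fun i _ j _ => hu0 i j)
    (fun i _ j _ => hu1 i j) (fun i _ j _ => husym i j) l hl hl1' 64 hN1a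
  have hN1pos : 0 < N1.card := by omega
  have hN2pos : 0 < N2.card := by
    rcases Nat.eq_zero_or_pos N2.card with h | h
    · rw [h] at hN2c; omega
    · exact h
  have hN2P : N2 ⊆ P := hN2N.trans hN1P
  -- the partners
  set part : ℕ → Prop := fun a => ∃ i ∈ P, i ≠ a ∧ ‖br α β i a‖ < l ^ 16 with hpart
  set π : ℕ → ℕ := fun a => if h : part a then h.choose else a with hπ
  have hπs : ∀ a, part a → π a ∈ P ∧ π a ≠ a ∧ ‖br α β (π a) a‖ < l ^ 16 := by
    intro a ha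
    have : π a = ha.choose := by simp only [hπ, dif_pos ha]
    rw [this]
    exact ⟨ha.choose_spec.1, ha.choose_spec.2.1, ha.choose_spec.2.2⟩
  set Bad1 : Finset ℕ → Prop := fun w =>
    ¬ (‖EE α β w (K + 1)‖ ≤ 2 * l ^ 960 ∧ ‖EE α β w K‖ ≤ 2 * l ^ 960) with hBad1
  set Bad2 : Finset ℕ → Prop := fun w => ¬ ‖EE α β w K‖ ≤ 4 * l ^ 896 with hBad2
  have hsepN1 : ∀ a ∈ N1, ∀ a' ∈ N1, a ≠ a' → l ^ 64 ≤ u a a' := by
    intro a ha a' ha' hne
    refine (hN1a a ha).trans ?_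
    have h1 : a' ∈ N1.erase a := Finset.mem_erase.2 ⟨hne.symm, ha'⟩
    rw [← Finset.mul_prod_erase _ _ h1]
    have : ∏ x ∈ (N1.erase a).erase a', u a x ≤ 1 :=
      Finset.prod_le_one (fun i _ => hu0 a i) (fun i _ => hu1 a i)
    calc _ ≤ u a a' * 1 := by gcongr
      _ = _ := mul_one _
  have hsepN2 : ∀ a ∈ N2, ∀ a' ∈ N2, a ≠ a' → l ≤ u a a' := by
    intro a ha a' ha' hne
    refine (hN2a a ha).trans ?_
    have h1 : a' ∈ N2.erase a := Finset.mem_erase.2 ⟨hne.symm, ha'⟩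
    rw [← Finset.mul_prod_erase _ _ h1]
    have : ∏ x ∈ (N2.erase a).erase a', u a x ≤ 1 :=
      Finset.prod_le_one (fun i _ => hu0 a i) (fun i _ => hu1 a i)
    calc _ ≤ u a a' * 1 := by gcongr
      _ = _ := mul_one _
  obtain ⟨A, hA𝒯, hX1, hX2, hX3⟩ := exists_good_set P n hn hnP 𝒯 h𝒯 c δ q η hc hη hcon.le hδ hq
    N1 N2 top hN1P hN2P htop (Finset.card_pos.1 hN1pos) (Finset.card_pos.1 hN2pos)
    (Finset.card_pos.1 (by omega)) (by
      refine le_trans ?_ hη'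
      have hKc0 : (0 : ℝ) < Kc := by exact_mod_cast hKc
      have h1 : (Kc : ℝ) ≤ 2 * N1.card := by exact_mod_cast hKcN
      have h2 : (Kc : ℝ) ≤ 130 * N2.card := by
        have : (N1.card : ℝ) ≤ (64 + 1) * N2.card := by exact_mod_cast hN2c
        linarith
      have h3 : (0 : ℝ) < N1.card := by exact_mod_cast hN1pos
      have h4 : (0 : ℝ) < N2.card := by exact_mod_cast hN2pos
      have h5 : q / N1.card ≤ 2 * q / Kc := by
        rw [div_le_div_iff₀ h3 hKc0]; nlinarith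
      have h6 : (q + q ^ 2) / N2.card ≤ 130 * (q + q ^ 2) / Kc := by
        rw [div_le_div_iff₀ h4 hKc0]
        have : 0 ≤ q + q ^ 2 := by positivity
        nlinarith
      have h7 : (2 * q + 130 * (q + q ^ 2)) / Kc = 2 * q / Kc + 130 * (q + q ^ 2) / Kc :=
        add_div _ _ _
      rw [h7]
      linarith)
    part π (fun a _ ha => ⟨(hπs a ha).1, (hπs a ha).2.1⟩) Bad1 Bad2
    (by
      intro w hw a haP a' ha'P hor haw ha'w hT hT'
      by_contra hne
      apply hw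
      have haN : a ∈ N1 ∧ a' ∈ N1 := by
        rcases hor with h | h
        · exact h
        · exact ⟨hN2N h.1, hN2N h.2⟩
      have hb := hsepN1 a haN.1 a' haN.2 hne
      have e1 := h𝒯e _ hT
      have e2 := h𝒯e _ hT'
      rw [EE_insert_succ haw] at e1
      rw [EE_insert_succ ha'w] at e2
      obtain ⟨c1, c2⟩ := cramer (hnorm a) (hnorm a') e1 e2
      have hl64 : 0 < l ^ 64 := by positivity
      constructor
      · have : l ^ 64 * ‖EE α β w (K + 1)‖ ≤ 2 * l ^ 1024 := by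
          refine le_trans ?_ c1
          gcongr
        have h3 : 2 * l ^ 1024 = l ^ 64 * (2 * l ^ 960) := by ring
        rw [h3] at this
        exact le_of_mul_le_mul_left this hl64
      · have : l ^ 64 * ‖EE α β w K‖ ≤ 2 * l ^ 1024 := by
          refine le_trans ?_ c2
          gcongr
        have h3 : 2 * l ^ 1024 = l ^ 64 * (2 * l ^ 960) := by ring
        rw [h3] at this
        exact le_of_mul_le_mul_left this hl64)
    (by
      intro w hw a ha a' ha' hpa hpa' haw hπaw ha'w hπa'w hT hT' hB1 hB1'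
      by_contra hne
      apply hw
      have hb := hsepN2 a ha a' ha' hne
      obtain ⟨p1, p2, p3⟩ := hπs a hpa
      obtain ⟨q1, q2, q3⟩ := hπs a' hpa'
      simp only [hBad1, not_not] at hB1 hB1'
      have e1 := hB1.1
      have e2 := hB1'.1
      rw [EE_insert_succ hπaw] at e1
      rw [EE_insert_succ hπa'w] at e2
      obtain ⟨_, c2⟩ := cramer (hnorm (π a)) (hnorm (π a')) e1 e2
      -- separation of the partners
      have t1 := norm_br_triangle (α := α) (β := β) (hnorm a) (hnorm a') (hnorm (π a))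
      have t2 := norm_br_triangle (α := α) (β := β) (hnorm (π a)) (hnorm a') (hnorm (π a'))
      have t3 : ‖br α β a (π a)‖ = ‖br α β (π a) a‖ := by rw [br_swap, norm_neg]
      have t4 : 10 * l ^ 16 ≤ l := by
        have : l ^ 15 ≤ (1 / 10) ^ 15 := by gcongr
        have h5 : l ^ 16 = l ^ 15 * l := by ring
        have h6 : ((1 : ℝ) / 10) ^ 15 ≤ 1 / 10 := by norm_num
        nlinarith
      have t5 : l ^ 64 ≤ l ^ 16 := hpow 64 16 (by norm_num)
      have t6 : l ^ 64 ≤ ‖br α β (π a) (π a')‖ := by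
        simp only [hu] at hb
        linarith
      have hl64 : 0 < l ^ 64 := by positivity
      have : l ^ 64 * ‖EE α β w K‖ ≤ 2 * (2 * l ^ 960) := by
        refine le_trans ?_ c2
        gcongr
      have h3 : 2 * (2 * l ^ 960) = l ^ 64 * (4 * l ^ 896) := by ring
      rw [h3] at this
      exact le_of_mul_le_mul_left this hl64)
  -- now the fixed set `A`
  have hAP := (Finset.mem_powersetCard.1 (h𝒯 hA𝒯)).1
  have hAn := (Finset.mem_powersetCard.1 (h𝒯 hA𝒯)).2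
  have hA1 : 1 ≤ A.card := by omega
  have hn0 : (1 : ℝ) ≤ n := by exact_mod_cast (by omega : 1 ≤ n)
  set s : ℕ → ℝ := fun i => ‖v i‖ / ρ with hs
  have hs0 : ∀ i, 0 ≤ s i := fun i => by positivity
  have hS0 : 0 ≤ S := le_trans (Finset.sum_nonneg fun i _ => by positivity) hS
  have hαs : ∀ i, ‖α i‖ = 1 / (1 + s i) := fun i => norm_aa hρ0 i
  have hβs : ∀ i, ‖β i‖ = s i / (1 + s i) := fun i => norm_bb hρ0 i
  have hsumS : ∀ D : Finset ℕ, D ⊆ P → (∀ i ∈ D, s i ≤ 1) → ∑ i ∈ D, s i ≤ S := by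
    intro D hD hD1
    refine le_trans (Finset.sum_le_sum_of_subset_of_nonneg ?_ fun i _ _ => hs0 i) hS
    intro i hi
    rw [Finset.mem_filter]
    have := hD1 i hi
    simp only [hs] at this
    rw [div_le_one hρ0] at this
    exact ⟨hD hi, this⟩
  set F := N1.filter (fun a => a ∈ A ∧ ¬ Bad1 (A.erase a)) with hF
  set Bn := N1.filter (fun a => ¬ (a ∈ A ∧ ¬ Bad1 (A.erase a))) with hBn
  replace hX1 : (Bn.card : ℝ) ≤ η * N1.card := by convert hX1
  have hFA : F ⊆ A := fun a ha => (Finset.mem_filter.1 ha).2.1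
  have hFN : F ⊆ N1 := Finset.filter_subset _ _
  have hfb : F.card + Bn.card = N1.card := Finset.card_filter_add_card_filter_not _
  have hFgood : ∀ a ∈ F, ‖EE α β (A.erase a) K‖ ≤ 2 * l ^ 960 := by
    intro a ha
    have h1 := (Finset.mem_filter.1 ha).2.2
    simp only [hBad1, not_not] at h1
    exact h1.2
  have hl2 : l ^ 2 ≤ Real.exp (-(2 * S)) := by
    refine he.trans (Real.exp_le_exp.2 ?_)
    have : 0 ≤ 2 * x * n := by positivity
    linarith
  have hKn' : ((K : ℝ) + 1) ≤ n ^ 2 := by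
    have h1 : ((K : ℝ) + 1) ≤ n := by exact_mod_cast hKn
    nlinarith
  -- few good nodes
  have hfK : F.card ≤ K := by
    by_contra hfK
    push Not at hfK
    obtain ⟨T, hTF, hTc⟩ := Finset.exists_subset_card_eq (show K + 1 ≤ F.card from hfK)
    have hTA : T ⊆ A := hTF.trans hFA
    have hmg := many_good (α := α) (β := β) (fun i _ => hnorm i) (fun i _ => hα0 i) hTA K hTc
      (κ := l ^ 64) (τ := 2 * l ^ 960) (by positivity) (by positivity)
      (fun a ha => (hN1a a (hFN (hTF ha))).trans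
        (prod_erase_mono u T N1 (hTF.trans hFN) (fun i _ j _ => hu0 i j) (fun i _ j _ => hu1 i j) ha))
      (fun a ha => hFgood a (hTF ha))
    have h1 := LB1 (α := α) (β := β) (A \ T) s (fun i _ => hs0 i) (fun i _ => hαs i)
      (fun i _ => hβs i) K (by
        refine le_trans (Finset.card_le_card ?_) hP1
        intro i hi
        rw [Finset.mem_filter] at hi ⊢
        refine ⟨hAP (Finset.mem_sdiff.1 hi.1).1, ?_⟩
        have := hi.2
        simp only [hs] at this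
        rwa [one_lt_div hρ0] at this) S
      (hsumS _ (by
        intro i hi
        exact hAP (Finset.mem_sdiff.1 (Finset.mem_filter.1 hi).1).1) (by
        intro i hi
        exact not_lt.1 (Finset.mem_filter.1 hi).2)) _ hmg
    have h2 : (1 / 4 : ℝ) ^ K * l ^ 2 ≤ 2 * ((K + 1) * (2 * l ^ 960 / l ^ 64)) := by
      refine le_trans ?_ h1
      gcongr
    have h3 : 2 * l ^ 960 / l ^ 64 = 2 * l ^ 896 := by field_simp
    rw [h3] at h2
    have h4 : l ^ 2 ≤ 4 ^ K * (2 * ((K + 1) * (2 * l ^ 896))) := by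
      calc l ^ 2 = 4 ^ K * ((1 / 4 : ℝ) ^ K * l ^ 2) := by
            rw [← mul_assoc, ← mul_pow]; norm_num
        _ ≤ _ := by gcongr
    have h5 : 4 ^ K * (2 * ((K + 1) * (2 * l ^ 896))) ≤ l ^ 894 := by
      calc (4 : ℝ) ^ K * (2 * ((K + 1) * (2 * l ^ 896)))
          ≤ 4 ^ K * (2 * (n ^ 2 * (2 * l ^ 896))) := by gcongr
        _ ≤ ((n : ℝ) ^ 2 * 2 ^ (2 * K + 8) * l ^ 2) * l ^ 894 := by
            have h6 : (2 : ℝ) ^ (2 * K + 8) = 256 * 4 ^ K := by
              rw [pow_add, pow_mul]; norm_num; ring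
            rw [h6]
            have h7 : 0 ≤ (4 : ℝ) ^ K * n ^ 2 * l ^ 896 := by positivity
            nlinarith
        _ ≤ 1 * l ^ 894 := by gcongr
        _ = _ := one_mul _
    have h6 : l ^ 894 ≤ l ^ 3 := hpow 894 3 (by norm_num)
    have h7 : l ^ 3 < l ^ 2 := by
      have : l ^ 3 = l * l ^ 2 := by ring
      rw [this]
      have : 0 < l ^ 2 := by positivity
      nlinarith
    linarith
  -- number of bad nodes
  have hbη : (Bn.card : ℝ) ≤ 2 * η * K := by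
    have h1 : (N1.card : ℝ) = F.card + Bn.card := by exact_mod_cast hfb.symm
    have h2 : (F.card : ℝ) ≤ K := by exact_mod_cast hfK
    rw [h1] at hX1
    have h3 : (0 : ℝ) ≤ Bn.card := Nat.cast_nonneg _
    have h4 : η * (Bn.card : ℝ) ≤ 1 / 2 * Bn.card := by gcongr; linarith
    have h5 : η * (F.card : ℝ) ≤ η * K := by gcongr
    rw [mul_add] at hX1
    linarith
  have hbK : Bn.card ≤ K := by
    have h0 : (0 : ℝ) ≤ K := Nat.cast_nonneg _
    have h1 : (Bn.card : ℝ) ≤ K := hbη.trans (by nlinarith)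
    exact_mod_cast h1
  have hbn : Bn.card ≤ n := by omega
  -- omega bound
  have hn2' : 2 * (K : ℝ) * l ^ 2 ≤ 1 := by
    refine le_trans ?_ hn2
    have h1 : (2 : ℝ) ≤ 2 ^ (2 * K + 8) := by
      calc (2 : ℝ) = 2 ^ 1 := by norm_num
        _ ≤ 2 ^ (2 * K + 8) := pow_le_pow_right₀ (by norm_num) (by omega)
    have h0 : (0 : ℝ) ≤ K := Nat.cast_nonneg _
    have h2 : (K : ℝ) ≤ n ^ 2 := by linarith
    calc 2 * (K : ℝ) * l ^ 2 = K * 2 * l ^ 2 := by ring
      _ ≤ n ^ 2 * 2 ^ (2 * K + 8) * l ^ 2 := by gcongr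
  have hω : ∀ i ∈ A, ‖EE α β (A.erase i) K‖ * ∏ a ∈ Bn, ‖br α β i a‖ ≤ 2 ^ K * (2 * l ^ 64) := by
    intro i hi
    have hpB : ∏ a ∈ Bn, ‖br α β i a‖ ≤ 1 :=
      Finset.prod_le_one (fun a _ => hu0 i a) (fun a _ => hu1 i a)
    have hpB0 : 0 ≤ ∏ a ∈ Bn, ‖br α β i a‖ := Finset.prod_nonneg fun a _ => hu0 i a
    have h2K : (1 : ℝ) ≤ 2 ^ K := one_le_pow₀ (by norm_num)
    by_cases hiN : i ∈ N1
    · by_cases hiF : i ∈ F
      · calc _ ≤ (2 * l ^ 960) * 1 := by
              gcongr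
              exact hFgood i hiF
          _ ≤ 1 * (2 * l ^ 64) := by
              have := hpow 960 64 (by norm_num)
              linarith
          _ ≤ _ := by gcongr
      · have hiB : i ∈ Bn := by
          rw [hBn, Finset.mem_filter]
          refine ⟨hiN, fun h => hiF ?_⟩
          rw [hF, Finset.mem_filter]
          exact ⟨hiN, h⟩
        rw [Finset.prod_eq_zero hiB (by rw [br_self, norm_zero]), mul_zero]
        positivity
    · have hiF : i ∉ F := fun h => hiN (hFN h)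
      have h1 := omega_bound (α := α) (β := β) (fun i _ => hnorm i) (fun i _ => hα0 i) hFA K
        (κ := l ^ 64) (τ := 2 * l ^ 960) (by positivity) (hpow 64 0 (by norm_num) |>.trans (by simp))
        (by positivity)
        (fun a ha => (hN1a a (hFN ha)).trans
          (prod_erase_mono u F N1 hFN (fun i _ j _ => hu0 i j) (fun i _ j _ => hu1 i j) ha))
        hFgood hi hiF
      have h3 : 2 * l ^ 960 / l ^ 64 = 2 * l ^ 896 := by field_simp
      rw [h3] at h1
      have h4 : (∏ a ∈ F, ‖br α β i a‖) * ∏ a ∈ Bn, ‖br α β i a‖ ≤ l ^ 64 := by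
        have h5 : (∏ a ∈ F, ‖br α β i a‖) * ∏ a ∈ Bn, ‖br α β i a‖ = ∏ a ∈ N1, ‖br α β i a‖ := by
          rw [hF, hBn]
          exact Finset.prod_filter_mul_prod_filter_not _ _ _
        rw [h5]
        exact hN1b i (hAP hi) hiN
      have h6 : (F.card : ℝ) * (2 * l ^ 896) ≤ l ^ 64 := by
        have h7 : (F.card : ℝ) ≤ K := by exact_mod_cast hfK
        calc (F.card : ℝ) * (2 * l ^ 896) ≤ K * (2 * l ^ 896) := by gcongr
          _ = (2 * (K : ℝ) * l ^ 2) * l ^ 894 := by ring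
          _ ≤ 1 * l ^ 894 := by gcongr
          _ ≤ l ^ 64 := by rw [one_mul]; exact hpow 894 64 (by norm_num)
      calc _ ≤ (2 ^ F.card * (∏ a ∈ F, ‖br α β i a‖ + F.card * (2 * l ^ 896))) *
            ∏ a ∈ Bn, ‖br α β i a‖ := by gcongr
        _ = 2 ^ F.card * ((∏ a ∈ F, ‖br α β i a‖) * ∏ a ∈ Bn, ‖br α β i a‖
            + F.card * (2 * l ^ 896) * ∏ a ∈ Bn, ‖br α β i a‖) := by ring
        _ ≤ 2 ^ F.card * (l ^ 64 + l ^ 64 * 1) := by
            gcongr
        _ ≤ 2 ^ K * (l ^ 64 + l ^ 64 * 1) := by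
            gcongr
            norm_num
        _ = _ := by ring
  -- fine nodes
  set Fine := N2.filter (fun a => a ∈ A ∧ ¬ Bad1 (A.erase a) ∧
        (part a → π a ∈ A ∧ ¬ Bad2 ((A.erase a).erase (π a)))) with hFine
  set Nf := N2.filter (fun a => ¬ (a ∈ A ∧ ¬ Bad1 (A.erase a) ∧
        (part a → π a ∈ A ∧ ¬ Bad2 ((A.erase a).erase (π a))))) with hNf
  replace hX2 : (Nf.card : ℝ) ≤ η * N2.card := by convert hX2
  have hbFine : Bn.card ≤ Fine.card := by
    have h1 : Fine.card + Nf.card = N2.card :=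
      Finset.card_filter_add_card_filter_not _
    have h2 : (Fine.card : ℝ) + (Nf.card : ℝ) = N2.card := by
      exact_mod_cast h1
    have h3 : (N1.card : ℝ) ≤ (64 + 1) * N2.card := by exact_mod_cast hN2c
    have h4 : (0 : ℝ) < N2.card := by exact_mod_cast hN2pos
    have h5 : (Bn.card : ℝ) ≤ Fine.card := by
      calc (Bn.card : ℝ) ≤ η * N1.card := hX1
        _ ≤ 1 / 132 * ((64 + 1) * N2.card) := by gcongr
        _ ≤ N2.card - η * N2.card := by nlinarith
        _ ≤ _ := by linarith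
    exact_mod_cast h5
  obtain ⟨G, hGF, hGc⟩ := Finset.exists_subset_card_eq hbFine
  have hGA : G ⊆ A := fun a ha => (Finset.mem_filter.1 (hGF ha)).2.1
  have hGN2 : G ⊆ N2 := hGF.trans (Finset.filter_subset _ _)
  have hG1 : ∀ g ∈ G, ‖EE α β (A.erase g) K‖ ≤ 2 * l ^ 960 := by
    intro g hg
    have h1 := (Finset.mem_filter.1 (hGF hg)).2.2.1
    simp only [hBad1, not_not] at h1
    exact h1.2
  have hG3 : ∀ g ∈ G, ∀ i ∈ A, i ≠ g → ‖br α β i g‖ < l ^ 16 →
      ‖EE α β ((A.erase g).erase i) K‖ ≤ 2 * (4 * l ^ 896 + 4 * l ^ 16) := by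
    intro g hg i hi hig hbr
    have hpg : part g := ⟨i, hAP hi, hig, hbr⟩
    obtain ⟨p1, p2, p3⟩ := hπs g hpg
    obtain ⟨q1, q2⟩ := (Finset.mem_filter.1 (hGF hg)).2.2.2 hpg
    simp only [hBad2, not_not] at q2
    by_cases hii : i = π g
    · rw [hii]
      have : 0 < l ^ 896 := by positivity
      have : 0 < l ^ 16 := by positivity
      linarith
    · have h1 : i ∈ A.erase g := Finset.mem_erase.2 ⟨hig, hi⟩
      have h2 : π g ∈ A.erase g := Finset.mem_erase.2 ⟨p2, q1⟩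
      have h3 := norm_EE_erase_le (α := α) (β := β) (B := A.erase g) (fun i _ => hnorm i) h1 h2 hii K
      have t1 := norm_br_triangle (α := α) (β := β) (hnorm i) (hnorm (π g)) (hnorm g)
      have t2 : ‖br α β g (π g)‖ = ‖br α β (π g) g‖ := by rw [br_swap, norm_neg]
      refine h3.trans ?_
      gcongr
      linarith
  -- the threshold radius
  obtain ⟨r, hrlo, hrK, hrK'⟩ := exists_rstar A s K (r0 / ρ) (by
    refine (h𝒯r A hA𝒯).trans (Finset.card_le_card ?_)
    intro i hi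
    rw [Finset.mem_filter] at hi ⊢
    refine ⟨hi.1, ?_⟩
    simp only [hs]
    gcongr
    exact hi.2)
  have hr0' : 0 < r := lt_of_lt_of_le (by positivity) hrlo
  have hlr : l ≤ r := hr0l.trans hrlo
  have hr1 : r ≤ 1 := by
    by_contra hr1
    push Not at hr1
    have : (A.filter (fun i => r ≤ s i)).card ≤ K := by
      refine le_trans (Finset.card_le_card ?_) hP1
      intro i hi
      rw [Finset.mem_filter] at hi ⊢
      refine ⟨hAP hi.1, ?_⟩
      have h1 : 1 < s i := lt_of_lt_of_le hr1 hi.2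
      simp only [hs] at h1
      rwa [one_lt_div hρ0] at h1
    omega
  have hrpow : ∀ e : ℕ, (r0 / ρ) ^ e ≤ r ^ e := fun e => by gcongr
  have hg : ∃ g : ℕ, g ≤ (A.filter (fun i => r < s i ∧ 1 ≤ s i)).card ∧
      l ^ 4 ≤ r ^ (K - g) * r ^ Bn.card := by
    rcases hcase with ⟨hc1, hc2⟩ | hc1
    · rcases lt_or_eq_of_le hr1 with hr1' | hr1'
      · refine ⟨(top ∩ A).card, Finset.card_le_card ?_, ?_⟩
        · intro i hi
          rw [Finset.mem_inter] at hi
          rw [Finset.mem_filter]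
          have h1 : 1 ≤ s i := by
            simp only [hs]
            rw [one_le_div hρ0]
            exact hc1 i hi.1
          exact ⟨hi.2, lt_of_lt_of_le hr1' h1, h1⟩
        · have h1 : (top ∩ A).card + (top \ A).card = K + 1 := by
            rw [← htopc]; exact Finset.card_inter_add_card_sdiff top A
          have h2 : K - (top ∩ A).card ≤ (top \ A).card := by omega
          rw [← pow_add]
          refine le_trans (hc2 _ ?_) (hrpow _)
          push_cast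
          have h3 : ((K - (top ∩ A).card : ℕ) : ℝ) ≤ (top \ A).card := by exact_mod_cast h2
          rw [htopc] at hX3
          push_cast at hX3
          have h4 : (0 : ℝ) ≤ K := Nat.cast_nonneg _
          nlinarith
      · refine ⟨0, Nat.zero_le _, ?_⟩
        rw [hr1', one_pow, one_pow, one_mul]
        exact pow_le_one₀ hl.le hlle
    · refine ⟨0, Nat.zero_le _, ?_⟩
      rw [← pow_add]
      refine le_trans (hc1 _ ?_) (hrpow _)
      omega
  obtain ⟨g, hg1, hg2⟩ := hg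
  obtain ⟨j, hjK, hj⟩ := LB2 (α := α) (β := β) A s (fun i _ => hs0 i) (fun i _ => hαs i)
    (fun i _ => hβs i) K r x hr0' hr1 hx hx1 hrK' g hg1 S
    (hsumS _ ((Finset.filter_subset _ _).trans hAP) (by
      intro i hi
      exact (not_lt.1 (Finset.mem_filter.1 hi).2).trans hr1))
  have hfin := final_numeric n Bn.card K hbK hbn l r K0 x (Real.exp (-(2 * x * A.card + S)))
    (r ^ (K - g) * r ^ Bn.card) hl hl1 hlr hn2 hK0 hK0l hxl (by
      refine he.trans (Real.exp_le_exp.2 ?_)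
      rw [hAn]
      linarith) hg2
  refine hcore ℕ α β A (fun i _ => hnorm i) (fun i _ => hα0 i) K (by omega) hA1 Bn
    (fun i _ => hnorm i) (fun i _ => hα0 i) (2 ^ K * (2 * l ^ 64)) (l ^ 16) (2 * l ^ 960)
    (2 * (4 * l ^ 896 + 4 * l ^ 16)) l r (by positivity) (by positivity) (by positivity)
    (by positivity) hl hr0' hr1 hω G hGA hGc
    (fun g hg => (hN2a g (hGN2 hg)).trans
        (prod_erase_mono u G N2 hGN2 (fun i _ j _ => hu0 i j) (fun i _ j _ => hu1 i j) hg))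
    hG1 hG3 (by
      refine hrK.trans (Finset.card_le_card ?_)
      intro i hi
      rw [Finset.mem_filter] at hi ⊢
      refine ⟨hi.1, ?_⟩
      rw [hαs i, hβs i, mul_one_div]
      have := hs0 i
      gcongr
      exact hi.2) j hjK ?_
  rw [hAn]
  refine lt_of_lt_of_le hfin ?_
  calc (x / 2) ^ K / (K + 1) * (r ^ (K - g) * r ^ Bn.card) * Real.exp (-(2 * x * A.card + S))
      = ((x / 2) ^ K / (K + 1) * r ^ (K - g) * Real.exp (-(2 * x * A.card + S))) * r ^ Bn.card := by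
        ring
    _ ≤ _ := by gcongr

end Pool.Agent.Helper94.ES
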