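import Pool.Agent.Helper94.ES.DT
import Pool.Agent.Helper94.ES.DTDefs

/-!
# Choice of constants: the statement `PoolDT`
-/

open Finset Polynomial

namespace Pool.Agent.Helper94.ES

set_option linter.unusedSectionVars false

theorem poolDT : PoolDT := by
  classical
  obtain ⟨K0, hK0, hdt⟩ := dt_pool
  intro ε' hε' c hc r0' hr0'
  obtain ⟨ε, hε⟩ : ∃ ε : ℝ, ε = min ε' 1 := ⟨_, rfl⟩
  have hε0 : 0 < ε := hε ▸ lt_min hε' one_pos
  have hε1 : ε ≤ 1 := hε ▸ min_le_right _ _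
  have hεε' : ε ≤ ε' := hε ▸ min_le_left _ _
  obtain ⟨r0, hr0⟩ : ∃ r0 : ℝ, r0 = min r0' 1 := ⟨_, rfl⟩
  have hr00 : 0 < r0 := hr0 ▸ lt_min hr0' one_pos
  have hr01 : r0 ≤ 1 := hr0 ▸ min_le_right _ _
  obtain ⟨L0, hL0⟩ : ∃ L0 : ℝ, L0 = -Real.log r0 := ⟨_, rfl⟩
  have hL00 : 0 ≤ L0 := by
    have := Real.log_nonpos hr00.le hr01
    linarith
  obtain ⟨η, hη⟩ : ∃ η : ℝ, η = ε / 1024 := ⟨_, rfl⟩
  have hη0 : 0 < η := by rw [hη]; positivity
  obtain ⟨x, hx⟩ : ∃ x : ℝ, x = ε / 2048 := ⟨_, rfl⟩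
  have hx0 : 0 < x := by rw [hx]; positivity
  obtain ⟨ε1, hε1'⟩ : ∃ ε1 : ℝ, ε1 = ε / 4096 := ⟨_, rfl⟩
  have hε10 : 0 < ε1 := by rw [hε1']; positivity
  obtain ⟨δ, hδ⟩ : ∃ δ : ℝ, δ = min (η * c / 16) (1 / 4) := ⟨_, rfl⟩
  have hδ0 : 0 < δ := hδ ▸ lt_min (by positivity) (by norm_num)
  have hδ1 : δ ≤ η * c / 16 := hδ ▸ min_le_left _ _
  have hδ2 : δ ≤ 1 / 4 := hδ ▸ min_le_right _ _
  refine ⟨ε1, hε10, δ, hδ0, ?_⟩
  intro R hR
  obtain ⟨q, hq⟩ : ∃ q : ℝ, q = 1 / δ := ⟨_, rfl⟩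
  have hq0 : 0 < q := by rw [hq]; positivity
  obtain ⟨Kc, hKc⟩ : ∃ Kc : ℕ, Kc = ⌈2 * (2 * q + 130 * (q + q ^ 2)) / (η * c)⌉₊ + 1 := ⟨_, rfl⟩
  have hKc1 : 1 ≤ Kc := by omega
  have hKcq : (2 * q + 130 * (q + q ^ 2)) / Kc ≤ η * c / 2 := by
    have h1 : 2 * (2 * q + 130 * (q + q ^ 2)) / (η * c) ≤ Kc := by
      rw [hKc]; push_cast
      have := Nat.le_ceil (2 * (2 * q + 130 * (q + q ^ 2)) / (η * c))
      linarith
    have h2 : 0 < η * c := by positivity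
    have h3 : (0 : ℝ) < Kc := by exact_mod_cast hKc1
    rw [div_le_iff₀ h2] at h1
    rw [div_le_iff₀ h3]
    linarith
  refine ⟨Kc, ?_⟩
  intro R0 hR0 θ hθ
  have hlogR : 0 ≤ Real.log R := Real.log_nonneg hR
  have hlogK0 : 0 ≤ Real.log K0 := Real.log_nonneg hK0
  obtain ⟨Lx, hLx⟩ : ∃ Lx : ℝ, Lx = Real.log (4 / x) := ⟨_, rfl⟩
  have hLx0 : 0 ≤ Lx := by
    rw [hLx]
    apply Real.log_nonneg
    rw [le_div_iff₀ hx0, hx]
    linarith
  obtain ⟨Lθ, hLθ⟩ : ∃ Lθ : ℝ, Lθ = |Real.log ((1 + R0) ^ 2 / θ)| := ⟨_, rfl⟩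
  have hLθ0 : 0 ≤ Lθ := hLθ ▸ abs_nonneg _
  -- constants
  obtain ⟨D, hD⟩ : ∃ D : ℝ, D = 1 + 3 * L0 + Real.log R + Real.log K0 + Lx := ⟨_, rfl⟩
  have hD1 : 1 ≤ D := by linarith
  obtain ⟨γ, hγ⟩ : ∃ γ : ℝ, γ = ε / (2048 * D) := ⟨_, rfl⟩
  have hγ0 : 0 < γ := by rw [hγ]; positivity
  have hγD : γ * D = ε / 2048 := by rw [hγ]; field_simp
  have hγ1 : γ ≤ ε / 2048 := by
    calc γ = γ * 1 := (mul_one γ).symm
      _ ≤ γ * D := by gcongr
      _ = _ := hγD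
  obtain ⟨K1, hK1⟩ : ∃ K1 : ℕ, K1 = ⌈(1024 + 16 * Kc) / ε⌉₊ + 1 := ⟨_, rfl⟩
  obtain ⟨n0, hn0⟩ : ∃ n0 : ℕ, n0 = ⌈(1024 * 10 + 1024 * L0 + 16 * Kc * Lθ + 1 / δ) / ε⌉₊
    + ⌈256 * 6 * (1024 / ε) ^ 3⌉₊ + ⌈1 / δ⌉₊ + 2 := ⟨_, rfl⟩
  refine ⟨K1, γ, hγ0, n0, ?_⟩
  intro n k N hn hk hkγ hN v hsum hB
  obtain ⟨B, hBN, hBc, hBR, hBθ⟩ := hB
  obtain ⟨K, rfl⟩ : ∃ K, k = K + 1 := ⟨k - 1, by omega⟩
  have hn0' : (n0 : ℝ) ≤ n := by exact_mod_cast hn
  have hk1 : (1024 + 16 * Kc : ℝ) ≤ ε * (K + 1) := by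
    have h1 : ((1024 + 16 * Kc) / ε : ℝ) ≤ K1 := by
      rw [hK1]; push_cast
      have := Nat.le_ceil ((1024 + 16 * Kc : ℝ) / ε)
      linarith
    have h2 : (K1 : ℝ) ≤ K + 1 := by exact_mod_cast hk
    rw [div_le_iff₀ hε0] at h1
    calc (1024 + 16 * Kc : ℝ) ≤ K1 * ε := h1
      _ ≤ (K + 1) * ε := by gcongr
      _ = _ := mul_comm _ _
  have hceil0 : (0 : ℝ) ≤ ⌈256 * 6 * (1024 / ε) ^ 3⌉₊ := Nat.cast_nonneg _
  have hceil1 : (0 : ℝ) ≤ ⌈1 / δ⌉₊ := Nat.cast_nonneg _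
  have hceil2 : (0 : ℝ) ≤ ⌈(1024 * 10 + 1024 * L0 + 16 * Kc * Lθ + 1 / δ) / ε⌉₊ := Nat.cast_nonneg _
  have hna : 1024 * 10 + 1024 * L0 + 16 * Kc * Lθ + 1 / δ ≤ ε * n := by
    have h1 := Nat.le_ceil ((1024 * 10 + 1024 * L0 + 16 * Kc * Lθ + 1 / δ) / ε)
    have h2 : (1024 * 10 + 1024 * L0 + 16 * Kc * Lθ + 1 / δ) / ε ≤ n := by
      refine le_trans ?_ hn0'
      rw [hn0]; push_cast
      linarith
    rw [div_le_iff₀ hε0] at h2
    linarith
  have hnb : 256 * 6 * (1024 / ε) ^ 3 ≤ (n : ℝ) := by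
    have h1 := Nat.le_ceil (256 * 6 * (1024 / ε) ^ 3)
    refine le_trans ?_ hn0'
    rw [hn0]; push_cast
    linarith
  have hnc : 1 / δ ≤ (n : ℝ) := by
    have h1 := Nat.le_ceil (1 / δ)
    refine le_trans ?_ hn0'
    rw [hn0]; push_cast
    linarith
  have hn2 : 2 ≤ n := by omega
  have hn2' : (2 : ℝ) ≤ n := by exact_mod_cast hn2
  have hnpos : (0 : ℝ) < n := by linarith
  have hKpos : (0 : ℝ) ≤ K := Nat.cast_nonneg _
  have hkγ' : ((K : ℝ) + 1) ≤ γ * n := by exact_mod_cast hkγ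
  have hKn : K + 1 ≤ n := by
    have : ((K : ℝ) + 1) ≤ n := by
      refine hkγ'.trans ?_
      have h8 : γ ≤ 1 := by linarith
      calc γ * n ≤ 1 * n := by gcongr
        _ = n := one_mul _
    exact_mod_cast this
  -- N
  have hNn : n ≤ N := by omega
  have hNr : (N : ℝ) = n + ⌈δ * n⌉₊ := by rw [hN]; push_cast; ring
  have hδn : 1 ≤ δ * n := by
    rw [div_le_iff₀ hδ0] at hnc
    linarith
  have hc1 : (⌈δ * n⌉₊ : ℝ) ≤ δ * n + 1 := (Nat.ceil_lt_add_one (by positivity)).le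
  have hc2 : δ * n ≤ (⌈δ * n⌉₊ : ℝ) := Nat.le_ceil _
  have hN2 : (N : ℝ) ≤ 2 * n := by
    have h8 : δ * n ≤ 1 / 4 * n := by gcongr
    rw [hNr]; linarith
  -- the scale
  obtain ⟨m, hm0, hmK, hmK'⟩ := exists_rstar (range N) (fun i => ‖v i‖) K 0 (by
    rw [Finset.filter_true_of_mem (fun i _ => norm_nonneg _), Finset.card_range]
    omega)
  obtain ⟨top, ht1, ht2, ht3⟩ := Finset.exists_subsuperset_card_eq
    (s := (range N).filter (fun i => m < ‖v i‖)) (t := (range N).filter (fun i => m ≤ ‖v i‖))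
    (Finset.monotone_filter_right _ (fun i _ h => le_of_lt h)) (n := K + 1) (by omega) hmK
  obtain ⟨ρ, hρ⟩ : ∃ ρ : ℝ, ρ = max R m := ⟨_, rfl⟩
  have hρR : R ≤ ρ := hρ ▸ le_max_left _ _
  have hρm : m ≤ ρ := hρ ▸ le_max_right _ _
  have hρ1 : 1 ≤ ρ := hR.trans hρR
  have hρ0 : 0 < ρ := by linarith
  have hlogρ : 0 ≤ Real.log ρ := Real.log_nonneg hρ1
  obtain ⟨Θ, hΘ⟩ : ∃ Θ : ℝ, Θ = n + (K + 1) * Real.log ρ := ⟨_, rfl⟩
  have hkl : 0 ≤ (K + 1 : ℝ) * Real.log ρ := by positivity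
  obtain ⟨y, hy⟩ : ∃ y : ℝ, y = ε * Θ / 1024 := ⟨_, rfl⟩
  obtain ⟨l, hl⟩ : ∃ l : ℝ, l = Real.exp (-y) := ⟨_, rfl⟩
  have hyn : ε * n / 1024 ≤ y := by
    rw [hy, hΘ]
    have : 0 ≤ ε * ((K + 1 : ℝ) * Real.log ρ) := by positivity
    linarith
  have hy10 : 10 ≤ y := by
    refine le_trans ?_ hyn
    have : 0 ≤ 16 * (Kc : ℝ) * Lθ := by positivity
    have : 0 < 1 / δ := by positivity
    linarith
  have hlpow : ∀ j : ℕ, l ^ j = Real.exp (-(j * y)) := by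
    intro j
    rw [hl, ← Real.exp_nat_mul]; congr 1; ring
  have hl0 : 0 < l := hl ▸ Real.exp_pos _
  have hl1 : l ≤ 1 / 10 := by
    rw [hl, Real.exp_neg, ← one_div]
    apply one_div_le_one_div_of_le (by norm_num)
    have := Real.add_one_le_exp y
    linarith
  -- exp(y) lower bounds
  have hlogr : Real.log (r0 / ρ) = -(L0 + Real.log ρ) := by
    rw [Real.log_div hr00.ne' hρ0.ne', hL0]; ring
  have hr0ρ : 0 < r0 / ρ := by positivity
  have hpowr : ∀ e : ℕ, (e : ℝ) * (L0 + Real.log ρ) ≤ 4 * y → l ^ 4 ≤ (r0 / ρ) ^ e := by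
    intro e he
    rw [hlpow, ← Real.exp_log (pow_pos hr0ρ e), Real.log_pow, hlogr]
    apply Real.exp_le_exp.2
    push_cast
    linarith
  have hlr0 : l ≤ r0 / ρ := by
    rw [← Real.exp_log hr0ρ, hlogr, hl]
    apply Real.exp_le_exp.2
    have h1 : L0 ≤ ε * n / 1024 := by
      have : 0 ≤ 16 * (Kc : ℝ) * Lθ := by positivity
      have : 0 < 1 / δ := by positivity
      linarith
    have h2 : Real.log ρ ≤ ε * ((K + 1) * Real.log ρ) / 1024 := by
      have h3 : (1024 : ℝ) ≤ ε * (K + 1) := by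
        have : (0 : ℝ) ≤ 16 * Kc := by positivity
        linarith
      calc Real.log ρ = 1024 * Real.log ρ / 1024 := by ring
        _ ≤ (ε * (K + 1)) * Real.log ρ / 1024 := by gcongr
        _ = _ := by ring
    rw [hy, hΘ]
    linarith
  have hcase : ((∀ i ∈ top, ρ ≤ ‖v i‖) ∧ ∀ e : ℕ, (e : ℝ) ≤ 3 * η * (K + 1) → l ^ 4 ≤ (r0 / ρ) ^ e) ∨
      (∀ e : ℕ, e ≤ 2 * K → l ^ 4 ≤ (r0 / ρ) ^ e) := by
    have hγL : γ * (3 * L0) ≤ ε / 2048 := by
      rw [← hγD]; gcongr; linarith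
    rcases le_total R m with h | h
    · left
      have hρm' : ρ = m := hρ.trans (max_eq_right h)
      refine ⟨fun i hi => ?_, fun e he => hpowr e ?_⟩
      · rw [hρm']
        exact (Finset.mem_filter.1 (ht2 hi)).2
      · calc (e : ℝ) * (L0 + Real.log ρ) ≤ 3 * η * (K + 1) * (L0 + Real.log ρ) := by gcongr
          _ = 3 * η * ((K + 1) * Real.log ρ) + η * ((K + 1) * (3 * L0)) := by ring
          _ ≤ 3 * η * ((K + 1) * Real.log ρ) + η * ((γ * n) * (3 * L0)) := by gcongr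
          _ = 3 * η * ((K + 1) * Real.log ρ) + η * n * (γ * (3 * L0)) := by ring
          _ ≤ 3 * η * ((K + 1) * Real.log ρ) + η * n * (ε / 2048) := by gcongr
          _ ≤ 4 * y := by
              rw [hy, hΘ, hη]
              have h5 : 0 ≤ ε * ((K + 1 : ℝ) * Real.log ρ) := by positivity
              have h6 : ε / 1024 * n * (ε / 2048) ≤ ε / 1024 * n * 1 := by gcongr; linarith
              have h7 : 0 ≤ ε * (n : ℝ) := by positivity
              linarith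
    · right
      have hρR' : ρ = R := hρ.trans (max_eq_left h)
      intro e he
      apply hpowr
      have he' : (e : ℝ) ≤ 2 * K := by exact_mod_cast he
      have h7 : γ * (L0 + Real.log R) ≤ ε / 2048 := by
        rw [← hγD]; gcongr; linarith
      calc (e : ℝ) * (L0 + Real.log ρ) ≤ 2 * (K + 1) * (L0 + Real.log R) := by
            rw [hρR']; gcongr; linarith
        _ ≤ 2 * (γ * n) * (L0 + Real.log R) := by gcongr
        _ = 2 * n * (γ * (L0 + Real.log R)) := by ring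
        _ ≤ 2 * n * (ε / 2048) := by gcongr
        _ ≤ 4 * y := by linarith
  have hS : ∑ i ∈ (range N).filter (fun i => ‖v i‖ ≤ ρ), ‖v i‖ / ρ ≤ ε1 * N := by
    refine le_trans ?_ hsum
    calc _ ≤ ∑ i ∈ (range N).filter (fun i => ‖v i‖ ≤ ρ), min 1 (‖v i‖ / R) := by
          refine Finset.sum_le_sum fun i hi => le_min ?_ ?_
          · rw [div_le_one hρ0]; exact (Finset.mem_filter.1 hi).2
          · gcongr
      _ ≤ _ := Finset.sum_le_sum_of_subset_of_nonneg (Finset.filter_subset _ _)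
          fun i _ _ => by positivity
  have hle : l ^ 2 ≤ Real.exp (-(2 * x * n + 2 * (ε1 * N))) := by
    rw [hlpow]
    apply Real.exp_le_exp.2
    have h1 : ε1 * N ≤ ε1 * (2 * n) := by gcongr
    rw [hx]
    rw [hε1'] at h1 ⊢
    push_cast
    linarith
  have hβ0 : 0 < θ / (ρ * (1 + R0) ^ 2) := by positivity
  have hκβ : l ^ 64 ≤ (θ / (ρ * (1 + R0) ^ 2)) ^ Kc := by
    rw [hlpow, ← Real.exp_log (pow_pos hβ0 Kc), Real.log_pow]
    apply Real.exp_le_exp.2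
    have h1 : Real.log (θ / (ρ * (1 + R0) ^ 2)) = -(Real.log ρ + Real.log ((1 + R0) ^ 2 / θ)) := by
      rw [Real.log_div hθ.ne' (by positivity), Real.log_mul hρ0.ne' (by positivity),
        Real.log_div (by positivity) hθ.ne']
      ring
    rw [h1]
    have h2 : Real.log ((1 + R0) ^ 2 / θ) ≤ Lθ := hLθ ▸ le_abs_self _
    have h3 : (Kc : ℝ) * Real.log ρ ≤ ε * ((K + 1) * Real.log ρ) / 16 := by
      have h4 : (16 * Kc : ℝ) ≤ ε * (K + 1) := by linarith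
      calc (Kc : ℝ) * Real.log ρ = (16 * Kc) * Real.log ρ / 16 := by ring
        _ ≤ (ε * (K + 1)) * Real.log ρ / 16 := by gcongr
        _ = _ := by ring
    have h5 : (Kc : ℝ) * Lθ ≤ ε * n / 16 := by
      have : 0 < 1 / δ := by positivity
      linarith
    have h6 : (Kc : ℝ) * Real.log ((1 + R0) ^ 2 / θ) ≤ Kc * Lθ := by gcongr
    rw [hy, hΘ]
    push_cast
    linarith
  have hexpn : 256 * (n : ℝ) ^ 2 ≤ Real.exp y := by
    have h1 := Real.pow_div_factorial_le_exp (ε * n / 1024) (by positivity) 3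
    have h2 : Real.exp (ε * n / 1024) ≤ Real.exp y := Real.exp_le_exp.2 hyn
    refine le_trans ?_ (h1.trans h2)
    have h3 : ((Nat.factorial 3 : ℕ) : ℝ) = 6 := by norm_num [Nat.factorial]
    rw [h3, le_div_iff₀ (by norm_num)]
    have h4 : (ε * n / 1024) ^ 3 = (n : ℝ) ^ 2 * (n * (ε / 1024) ^ 3) := by ring
    have h5 : 256 * 6 ≤ n * (ε / 1024) ^ 3 := by
      calc (256 * 6 : ℝ) = 256 * 6 * (1024 / ε) ^ 3 * (ε / 1024) ^ 3 := by
            rw [mul_assoc (256 * 6 : ℝ), ← mul_pow]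
            have : 1024 / ε * (ε / 1024) = 1 := by field_simp
            rw [this]; ring
        _ ≤ n * (ε / 1024) ^ 3 := by gcongr
    rw [h4]
    calc 256 * (n : ℝ) ^ 2 * 6 = (n : ℝ) ^ 2 * (256 * 6) := by ring
      _ ≤ _ := by gcongr
  have hexpK : (4 : ℝ) ^ K ≤ Real.exp y := by
    have h1 : (4 : ℝ) ≤ Real.exp 2 := by
      have := Real.add_one_le_exp (1 : ℝ)
      have h2 : Real.exp 2 = Real.exp 1 * Real.exp 1 := by rw [← Real.exp_add]; norm_num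
      have h3 : (2 : ℝ) ≤ Real.exp 1 := by linarith
      rw [h2]
      calc (4 : ℝ) = 2 * 2 := by norm_num
        _ ≤ Real.exp 1 * Real.exp 1 := by gcongr
    calc (4 : ℝ) ^ K ≤ (Real.exp 2) ^ K := by gcongr
      _ = Real.exp (K * 2) := by rw [← Real.exp_nat_mul]
      _ ≤ Real.exp y := by
          apply Real.exp_le_exp.2
          have : (K : ℝ) ≤ ε / 2048 * n := by
            have : γ * n ≤ ε / 2048 * n := by gcongr
            linarith
          linarith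
  have hl2y : l ^ 2 = 1 / (Real.exp y * Real.exp y) := by
    rw [hl, Real.exp_neg, inv_pow, one_div, sq]
  have hn2l : (n : ℝ) ^ 2 * 2 ^ (2 * K + 8) * l ^ 2 ≤ 1 := by
    rw [hl2y, mul_one_div, div_le_one (by positivity)]
    have h6 : (2 : ℝ) ^ (2 * K + 8) = 256 * 4 ^ K := by
      rw [pow_add, pow_mul]; norm_num; ring
    rw [h6]
    calc (n : ℝ) ^ 2 * (256 * 4 ^ K) = (256 * (n : ℝ) ^ 2) * 4 ^ K := by ring
      _ ≤ _ := by gcongr
  have hl1y : l = 1 / Real.exp y := by rw [hl, Real.exp_neg, one_div]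
  have hK0l : K0 ^ (2 * K) * l ≤ 1 := by
    rw [hl1y, mul_one_div, div_le_one (by positivity)]
    have hK0pos : 0 < K0 := by linarith
    rw [← Real.exp_log (pow_pos hK0pos (2 * K)), Real.log_pow]
    apply Real.exp_le_exp.2
    have h7 : γ * Real.log K0 ≤ ε / 2048 := by
      rw [← hγD]; gcongr; linarith
    push_cast
    calc 2 * (K : ℝ) * Real.log K0 ≤ 2 * (γ * n) * Real.log K0 := by gcongr; linarith
      _ = 2 * n * (γ * Real.log K0) := by ring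
      _ ≤ 2 * n * (ε / 2048) := by gcongr
      _ ≤ y := by linarith
  have hxl : l ≤ (x / 2) ^ K / (K + 1) := by
    have h1 : ((K : ℝ) + 1) ≤ 2 ^ K := by
      have : K + 1 ≤ 2 ^ K := Nat.lt_two_pow_self
      exact_mod_cast this
    have h2 : (x / 4) ^ K ≤ (x / 2) ^ K / (K + 1) := by
      rw [le_div_iff₀ (by positivity)]
      calc (x / 4) ^ K * (K + 1) ≤ (x / 4) ^ K * 2 ^ K := by gcongr
        _ = (x / 2) ^ K := by rw [← mul_pow]; congr 1; ring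
    refine le_trans ?_ h2
    have h3 : 0 < x / 4 := by positivity
    rw [← Real.exp_log (pow_pos h3 K), Real.log_pow, hl]
    apply Real.exp_le_exp.2
    have h4 : Real.log (x / 4) = -Lx := by
      rw [hLx, ← Real.log_inv, inv_div]
    rw [h4]
    have h7 : γ * Lx ≤ ε / 2048 := by
      rw [← hγD]; gcongr; linarith
    have h8 : (K : ℝ) * Lx ≤ y := by
      calc (K : ℝ) * Lx ≤ (γ * n) * Lx := by gcongr; linarith
        _ = n * (γ * Lx) := by ring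
        _ ≤ n * (ε / 2048) := by gcongr
        _ ≤ y := by
          have : 0 ≤ ε * n := by positivity
          linarith
    linarith
  -- apply the theorem
  have hres := hdt (range N) v n K hn2 (by rw [Finset.card_range]; exact hNn) hKn ρ l x η c
    (2 * δ) q (ε1 * N) r0 (θ / (ρ * (1 + R0) ^ 2)) Kc top B hρ1 hl0 hl1 hx0 (by rw [hx]; linarith)
    hη0 (by rw [hη]; linarith) hc hr00
    (by
      rw [Finset.card_range, hNr]
      have h8 : 0 ≤ 2 * δ * (⌈δ * n⌉₊ : ℝ) := by positivity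
      linarith)
    (by
      rw [Finset.card_range, hNr, hq]
      rw [div_mul_eq_mul_div, le_div_iff₀ hδ0, one_mul]
      linarith)
    hq0.le (ht2.trans (Finset.filter_subset _ _)) ht3
    (by
      refine le_trans (Finset.card_le_card ?_) hmK'
      intro i hi
      rw [Finset.mem_filter] at hi ⊢
      exact ⟨hi.1, lt_of_le_of_lt hρm hi.2⟩)
    hcase hS hle hBN hBc hKc1 hβ0.le
    (fun i hi j hj hij => norm_br_aa_bb_ge hρ1 hR0 hθ (hBR i hi) (hBR j hj) (hBθ i hi j hj hij))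
    hκβ (by linarith) hlr0 hn2l hK0l hxl
    (((range N).powersetCard n).filter (fun A => ‖∑ s ∈ A.powersetCard (K + 1), ∏ i ∈ s, v i‖
        ≤ Real.exp (-(ε' * n)) ∧ K + 1 ≤ (A.filter (fun i => r0' ≤ ‖v i‖)).card))
    (Finset.filter_subset _ _)
    (by
      intro A hA
      have hA2 := (Finset.mem_filter.1 hA).2.1
      refine (norm_EE_aa_bb_le hρ0 A (K + 1)).trans ?_
      rw [hlpow]
      have h1 : ρ ^ (K + 1) = Real.exp ((K + 1) * Real.log ρ) := by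
        rw [← Real.exp_log (pow_pos hρ0 (K + 1)), Real.log_pow]; push_cast; rfl
      rw [h1, div_le_iff₀ (Real.exp_pos _), ← Real.exp_add]
      refine hA2.trans (Real.exp_le_exp.2 ?_)
      rw [hy, hΘ]
      push_cast
      have h2 : ε * n ≤ ε' * n := by gcongr
      have h3 : ε * ((K + 1) * Real.log ρ) ≤ 1 * ((K + 1) * Real.log ρ) := by gcongr
      linarith)
    (by
      intro A hA
      have hA2 := (Finset.mem_filter.1 hA).2.2
      refine hA2.trans (Finset.card_le_card ?_)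
      intro i hi
      rw [Finset.mem_filter] at hi ⊢
      exact ⟨hi.1, (hr0 ▸ min_le_left _ _ : r0 ≤ r0').trans hi.2⟩)
  rw [Finset.card_range] at hres
  exact hres

end Pool.Agent.Helper94.ES
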