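import Mathlib

/-!
# Anti-concentration of elementary symmetric polynomials (MP_7f94de): basic definitions

For vectors `(α i, β i)` the number `EE α β S j` is the coefficient of `ζ ^ j` in
`∏ i ∈ S, (α i + β i ζ)`; `br α β i j = α i β j - α j β i`.
-/

open Finset Polynomial

namespace Pool.Agent.Helper94.ES

variable {ι : Type*} [DecidableEq ι]

/-- coefficient of `ζ ^ j` in `∏ i ∈ S, (α i + β i ζ)`. -/
noncomputable def EE (α β : ι → ℂ) (S : Finset ι) (j : ℕ) : ℂ :=
  (∏ i ∈ S, (C (α i) + C (β i) * X)).coeff j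

/-- the bracket `α i β j - α j β i`. -/
def br (α β : ι → ℂ) (i j : ι) : ℂ := α i * β j - α j * β i

end Pool.Agent.Helper94.ES
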