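import Pool.Agent.Helper94.ES.Lower

/-!
# Removing the poles at good elements
-/

open Finset Polynomial

namespace Pool.Agent.Helper94.ES

set_option linter.unusedSectionVars false

variable {ι : Type*} [DecidableEq ι] {α β : ι → ℂ}

/-- the linear polynomial of an element (in the variable `t`) -/
noncomputable def LL (α β : ι → ℂ) (i : ι) : ℂ[X] := C (α i) * X + C (β i)

theorem LL_eval (i : ι) (t : ℂ) : (LL α β i).eval t = α i * t + β i := by simp [LL]

/-- the root of `LL i` -/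
noncomputable def tt (α β : ι → ℂ) (i : ι) : ℂ := - β i / α i

theorem LL_eval_tt {g : ι} (hg : α g ≠ 0) (i : ι) :
    α g * (LL α β i).eval (tt α β g) = br α β g i := by
  rw [LL_eval, tt, br]; field_simp; ring

theorem LL_natDegree_le (i : ι) : (LL α β i).natDegree ≤ 1 := by
  unfold LL; exact Polynomial.natDegree_linear_le

theorem split_LL {i : ι} (hi : ‖α i‖ + ‖β i‖ = 1) {a : ι} (ha : ‖α a‖ + ‖β a‖ = 1) :
    ∃ (γ : ℂ) (l : ℂ[X]), LL α β a = C γ * LL α β i + l ∧ ‖γ‖ ≤ 2 ∧ l.natDegree ≤ 1 ∧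
      (∀ t : ℂ, ‖t‖ ≤ 1 → ‖l.eval t‖ ≤ 2 * ‖br α β i a‖) ∧
      (∀ g : ι, α g ≠ 0 → ‖α g‖ + ‖β g‖ = 1 → ‖α g‖ * ‖l.eval (tt α β g)‖ ≤ 2 * ‖br α β i a‖) := by
  have a1 := norm_nonneg (α a); have a2 := norm_nonneg (β a)
  have b0 := norm_nonneg (br α β i a)
  rcases le_total (1 / 2 : ℝ) ‖α i‖ with h | h
  · have hi0 : α i ≠ 0 := by rw [← norm_pos_iff]; linarith
    have hb : ‖br α β i a / α i‖ ≤ 2 * ‖br α β i a‖ := by
      rw [norm_div, div_le_iff₀ (by linarith)]; nlinarith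
    refine ⟨α a / α i, C (br α β i a / α i), ?_, ?_, ?_, ?_, ?_⟩
    · unfold LL br
      rw [mul_add, ← mul_assoc, ← C_mul, ← C_mul, add_assoc, ← C_add]
      congr 2
      · rw [div_mul_cancel₀ _ hi0]
      · congr 1; field_simp; ring
    · rw [norm_div, div_le_iff₀ (by linarith)]; linarith
    · rw [natDegree_C]; exact Nat.zero_le _
    · intro t _; rw [eval_C]; exact hb
    · intro g _ hg
      rw [eval_C]
      have : ‖α g‖ ≤ 1 := by linarith [norm_nonneg (β g)]
      calc _ ≤ 1 * ‖br α β i a / α i‖ := by gcongr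
        _ ≤ _ := by rw [one_mul]; exact hb
  · have h' : (1 / 2 : ℝ) ≤ ‖β i‖ := by linarith
    have hi0 : β i ≠ 0 := by rw [← norm_pos_iff]; linarith
    have hb : ‖- br α β i a / β i‖ ≤ 2 * ‖br α β i a‖ := by
      rw [norm_div, norm_neg, div_le_iff₀ (by linarith)]; nlinarith
    refine ⟨β a / β i, C (- br α β i a / β i) * X, ?_, ?_, ?_, ?_, ?_⟩
    · unfold LL br
      rw [mul_add, ← mul_assoc, ← C_mul, ← C_mul, div_mul_cancel₀ _ hi0]
      have : C (α a) = C (β a / β i * α i) + C (-(α i * β a - α a * β i) / β i) := by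
        rw [← C_add]; congr 1; field_simp; ring
      rw [this]; ring
    · rw [norm_div, div_le_iff₀ (by linarith)]; linarith
    · exact (natDegree_C_mul_le _ _).trans natDegree_X_le
    · intro t ht
      rw [eval_mul, eval_C, eval_X, norm_mul]
      calc _ ≤ ‖- br α β i a / β i‖ * 1 := by gcongr
        _ ≤ _ := by rw [mul_one]; exact hb
    · intro g hg0 hg
      have h3 : ‖tt α β g‖ = ‖β g‖ / ‖α g‖ := by rw [tt, norm_div, norm_neg]
      rw [eval_mul, eval_C, eval_X, norm_mul, h3]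
      have h1 : ‖α g‖ ≠ 0 := norm_ne_zero_iff.2 hg0
      have h2 : ‖β g‖ ≤ 1 := by linarith [norm_nonneg (α g)]
      calc ‖α g‖ * (‖- br α β i a / β i‖ * (‖β g‖ / ‖α g‖))
          = ‖- br α β i a / β i‖ * ‖β g‖ := by field_simp
        _ ≤ ‖- br α β i a / β i‖ * 1 := by gcongr
        _ ≤ _ := by rw [mul_one]; exact hb

/-- the node polynomial -/
noncomputable def NN (α β : ι → ℂ) (B : Finset ι) : ℂ[X] := ∏ a ∈ B, LL α β a

theorem exists_DR {i : ι} (hi : ‖α i‖ + ‖β i‖ = 1) (B : Finset ι)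
    (hB : ∀ a ∈ B, ‖α a‖ + ‖β a‖ = 1) :
    ∃ D R : ℂ[X], NN α β B = D * LL α β i + R ∧ D.degree < B.card ∧ R.natDegree ≤ B.card ∧
      (∀ t : ℂ, ‖t‖ ≤ 1 → ‖R.eval t‖ ≤ 2 ^ B.card * ∏ a ∈ B, ‖br α β i a‖) ∧
      (∀ g : ι, α g ≠ 0 → ‖α g‖ + ‖β g‖ = 1 →
        ‖α g‖ ^ B.card * ‖R.eval (tt α β g)‖ ≤ 2 ^ B.card * ∏ a ∈ B, ‖br α β i a‖) ∧
      (∀ g : ι, α g ≠ 0 → ‖α g‖ + ‖β g‖ = 1 →
        ‖α g‖ ^ B.card * ‖D.eval (tt α β g)‖ ≤ ‖α g‖ * 2 ^ (B.card + 1)) := by
  induction B using Finset.induction_on with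
  | empty =>
    refine ⟨0, 1, by simp [NN], by simp, by simp, ?_, ?_, ?_⟩
    · intro t _; simp
    · intro g _ _; simp
    · intro g _ _; simp
  | insert a B ha ih =>
    obtain ⟨D, R, h1, h2, h3, h4, h5, h6⟩ := ih (fun l hl => hB l (Finset.mem_insert_of_mem hl))
    have han := hB a (Finset.mem_insert_self _ _)
    obtain ⟨γ, l, k1, k2, k3, k4, k5⟩ := split_LL (α := α) (β := β) hi han
    have hbr1 : ∏ b ∈ B, ‖br α β i b‖ ≤ 1 :=
      Finset.prod_le_one (fun _ _ => norm_nonneg _) fun b hb =>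
        norm_br_le_one hi.le (hB b (Finset.mem_insert_of_mem hb)).le
    refine ⟨LL α β a * D + C γ * R, l * R, ?_, ?_, ?_, ?_, ?_, ?_⟩
    · rw [NN, Finset.prod_insert ha]
      have : ∏ x ∈ B, LL α β x = D * LL α β i + R := h1
      rw [this]
      calc LL α β a * (D * LL α β i + R) = LL α β a * D * LL α β i + LL α β a * R := by ring
        _ = LL α β a * D * LL α β i + (C γ * LL α β i + l) * R := by rw [← k1]
        _ = _ := by ring
    · rw [Finset.card_insert_of_notMem ha]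
      refine lt_of_le_of_lt (degree_add_le _ _) (max_lt ?_ ?_)
      · rw [degree_mul]
        have hL : (LL α β a).degree ≤ 1 := by
          refine degree_le_natDegree.trans ?_
          exact_mod_cast LL_natDegree_le a
        rcases eq_or_ne D 0 with rfl | hD
        · simp
        · rw [degree_eq_natDegree hD] at h2 ⊢
          have h2' : D.natDegree < B.card := by exact_mod_cast h2
          calc (LL α β a).degree + (D.natDegree : WithBot ℕ) ≤ 1 + (D.natDegree : WithBot ℕ) := by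
                gcongr
            _ = ((1 + D.natDegree : ℕ) : WithBot ℕ) := by push_cast; rfl
            _ < ((B.card + 1 : ℕ) : WithBot ℕ) := by
                exact_mod_cast (by omega : 1 + D.natDegree < B.card + 1)
      · refine lt_of_le_of_lt degree_le_natDegree ?_
        have h7 : (C γ * R).natDegree ≤ R.natDegree := natDegree_C_mul_le _ _
        exact_mod_cast (by omega : (C γ * R).natDegree < B.card + 1)
    · rw [Finset.card_insert_of_notMem ha]
      refine natDegree_mul_le.trans ?_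
      omega
    · intro t ht
      rw [Finset.card_insert_of_notMem ha, Finset.prod_insert ha, eval_mul, norm_mul, pow_succ]
      calc _ ≤ (2 * ‖br α β i a‖) * (2 ^ B.card * ∏ a ∈ B, ‖br α β i a‖) :=
            mul_le_mul (k4 t ht) (h4 t ht) (norm_nonneg _) (by positivity)
        _ = _ := by ring
    · intro g hg0 hg
      rw [Finset.card_insert_of_notMem ha, Finset.prod_insert ha, eval_mul, norm_mul, pow_succ,
        pow_succ]
      calc ‖α g‖ ^ B.card * ‖α g‖ * (‖l.eval (tt α β g)‖ * ‖R.eval (tt α β g)‖)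
          = (‖α g‖ * ‖l.eval (tt α β g)‖) * (‖α g‖ ^ B.card * ‖R.eval (tt α β g)‖) := by ring
        _ ≤ (2 * ‖br α β i a‖) * (2 ^ B.card * ∏ a ∈ B, ‖br α β i a‖) :=
            mul_le_mul (k5 g hg0 hg) (h5 g hg0 hg) (by positivity) (by positivity)
        _ = _ := by ring
    · intro g hg0 hg
      rw [Finset.card_insert_of_notMem ha, eval_add, eval_mul, eval_mul, eval_C]
      have e1 : ‖α g‖ * ‖(LL α β a).eval (tt α β g)‖ ≤ 1 := by
        rw [← norm_mul, LL_eval_tt hg0]; exact norm_br_le_one hg.le han.le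
      have e2 := h6 g hg0 hg
      have e3 := h5 g hg0 hg
      have e3' : ‖α g‖ ^ B.card * ‖R.eval (tt α β g)‖ ≤ 2 ^ B.card := by
        refine e3.trans ?_
        calc _ ≤ (2 : ℝ) ^ B.card * 1 := by gcongr
          _ = _ := mul_one _
      calc ‖α g‖ ^ (B.card + 1) * ‖(LL α β a).eval (tt α β g) * D.eval (tt α β g)
            + γ * R.eval (tt α β g)‖
          ≤ ‖α g‖ ^ (B.card + 1) * (‖(LL α β a).eval (tt α β g)‖ * ‖D.eval (tt α β g)‖
            + ‖γ‖ * ‖R.eval (tt α β g)‖) := by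
            gcongr
            refine (norm_add_le _ _).trans ?_
            rw [norm_mul, norm_mul]
        _ = (‖α g‖ * ‖(LL α β a).eval (tt α β g)‖) * (‖α g‖ ^ B.card * ‖D.eval (tt α β g)‖)
            + ‖γ‖ * ‖α g‖ * (‖α g‖ ^ B.card * ‖R.eval (tt α β g)‖) := by rw [pow_succ]; ring
        _ ≤ 1 * (‖α g‖ * 2 ^ (B.card + 1)) + 2 * ‖α g‖ * 2 ^ B.card := by
            gcongr
        _ = ‖α g‖ * 2 ^ (B.card + 1 + 1) := by rw [pow_succ, pow_succ]; ring

end Pool.Agent.Helper94.ES
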