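import Pool.Agent.Helper94.ES.Omega

/-!
# Lower bounds for the low coefficients
-/

open Finset Polynomial
open Pool.Agent.Helper43.ES (lagrange_EE)

namespace Pool.Agent.Helper94.ES

set_option linter.unusedSectionVars false

variable {ι : Type*} [DecidableEq ι] {α β : ι → ℂ}

theorem lower_step {S : Finset ι} {i : ι} (hi : i ∉ S) {r : ℝ} (hr : 0 ≤ r) (m : ℕ) :
    (‖α i‖ - ‖β i‖ * r) * ∑ j ∈ range m, ‖EE α β S j‖ * r ^ j
      ≤ ∑ j ∈ range m, ‖EE α β (insert i S) j‖ * r ^ j := by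
  rcases m with _ | m
  · simp
  have h1 : ‖α i‖ * ∑ j ∈ range (m + 1), ‖EE α β S j‖ * r ^ j
      ≤ ∑ j ∈ range (m + 1), ‖EE α β (insert i S) j‖ * r ^ j
        + ‖β i‖ * r * ∑ j ∈ range m, ‖EE α β S j‖ * r ^ j := by
    rw [Finset.sum_range_succ', Finset.sum_range_succ' (fun j => ‖EE α β (insert i S) j‖ * r ^ j),
      EE_insert_zero hi, Finset.mul_sum (s := range m), mul_add, Finset.mul_sum (s := range m)]
    have h2 : ∑ j ∈ range m, ‖α i‖ * (‖EE α β S (j + 1)‖ * r ^ (j + 1))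
        ≤ ∑ j ∈ range m, (‖EE α β (insert i S) (j + 1)‖ * r ^ (j + 1)
          + ‖β i‖ * r * (‖EE α β S j‖ * r ^ j)) := by
      refine Finset.sum_le_sum fun j _ => ?_
      have h3 : ‖α i‖ * ‖EE α β S (j + 1)‖ ≤ ‖EE α β (insert i S) (j + 1)‖
          + ‖β i‖ * ‖EE α β S j‖ := by
        have h4 : α i * EE α β S (j + 1) = EE α β (insert i S) (j + 1) - β i * EE α β S j := by
          rw [EE_insert_succ hi]; ring
        rw [← norm_mul, h4, ← norm_mul]
        exact norm_sub_le _ _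
      have h5 : 0 ≤ r ^ (j + 1) := by positivity
      have := mul_le_mul_of_nonneg_right h3 h5
      calc _ = ‖α i‖ * ‖EE α β S (j + 1)‖ * r ^ (j + 1) := by ring
        _ ≤ _ := this
        _ = _ := by ring
    rw [Finset.sum_add_distrib] at h2
    have h6 : ‖α i * EE α β S 0‖ = ‖α i‖ * ‖EE α β S 0‖ := norm_mul _ _
    rw [h6]
    simp only [pow_zero, mul_one]
    linarith
  have h2 : ∑ j ∈ range m, ‖EE α β S j‖ * r ^ j ≤ ∑ j ∈ range (m + 1), ‖EE α β S j‖ * r ^ j := by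
    rw [Finset.sum_range_succ]
    have : 0 ≤ ‖EE α β S m‖ * r ^ m := by positivity
    linarith
  have h3 : 0 ≤ ‖β i‖ * r := by positivity
  have := mul_le_mul_of_nonneg_left h2 h3
  rw [sub_mul]
  linarith

/-- **Lower bound** for the low coefficients. -/
theorem lower_bound (A top : Finset ι) (htop : top ⊆ A) {r : ℝ} (hr : 0 ≤ r)
    (hpos : ∀ i ∈ A \ top, 0 ≤ ‖α i‖ - ‖β i‖ * r) :
    r ^ top.card * (∏ i ∈ top, ‖β i‖) * ∏ i ∈ A \ top, (‖α i‖ - ‖β i‖ * r)
      ≤ ∑ j ∈ range (top.card + 1), ‖EE α β A j‖ * r ^ j := by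
  have key : ∀ U : Finset ι, Disjoint top U → (∀ i ∈ U, 0 ≤ ‖α i‖ - ‖β i‖ * r) →
      r ^ top.card * (∏ i ∈ top, ‖β i‖) * ∏ i ∈ U, (‖α i‖ - ‖β i‖ * r)
      ≤ ∑ j ∈ range (top.card + 1), ‖EE α β (top ∪ U) j‖ * r ^ j := by
    intro U
    induction U using Finset.induction_on with
    | empty =>
      intro _ _
      rw [Finset.prod_empty, mul_one, Finset.union_empty, Finset.sum_range_succ, EE_card, norm_prod]
      have : 0 ≤ ∑ j ∈ range top.card, ‖EE α β top j‖ * r ^ j :=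
        Finset.sum_nonneg fun _ _ => by positivity
      linarith [mul_comm (r ^ top.card) (∏ i ∈ top, ‖β i‖)]
    | insert i U hi ih =>
      intro hd hU
      have hd' : Disjoint top U := Finset.disjoint_of_subset_right (Finset.subset_insert _ _) hd
      have hit : i ∉ top := fun h =>
        (Finset.disjoint_left.1 hd h) (Finset.mem_insert_self _ _)
      have hiu : i ∉ top ∪ U := by simp [hit, hi]
      have h1 := ih hd' (fun l hl => hU l (Finset.mem_insert_of_mem hl))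
      have h2 := hU i (Finset.mem_insert_self _ _)
      rw [Finset.prod_insert hi, Finset.union_insert]
      refine le_trans ?_ (lower_step (α := α) (β := β) hiu hr _)
      calc _ = (‖α i‖ - ‖β i‖ * r) * (r ^ top.card * (∏ i ∈ top, ‖β i‖)
            * ∏ i ∈ U, (‖α i‖ - ‖β i‖ * r)) := by ring
        _ ≤ _ := mul_le_mul_of_nonneg_left h1 h2
  have h := key (A \ top) Finset.disjoint_sdiff hpos
  rwa [Finset.union_sdiff_of_subset htop] at h

/-- C2: many good nodes force the low coefficients of the complement to be tiny. -/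
theorem many_good {A : Finset ι} (hA : ∀ i ∈ A, ‖α i‖ + ‖β i‖ = 1) (hα : ∀ i ∈ A, α i ≠ 0)
    {T : Finset ι} (hT : T ⊆ A) (K : ℕ) (hcard : T.card = K + 1) {κ τ : ℝ} (hκ : 0 < κ)
    (hτ : 0 ≤ τ)
    (hsep : ∀ a ∈ T, κ ≤ ∏ b ∈ T.erase a, ‖br α β a b‖)
    (hgood : ∀ a ∈ T, ‖EE α β (A.erase a) K‖ ≤ τ) (j : ℕ) (hj : j ≤ K) :
    ‖EE α β (A \ T) j‖ ≤ (K + 1) * (τ / κ) := by
  have hbr : ∀ a ∈ T, ∀ b ∈ T, a ≠ b → br α β a b ≠ 0 := by
    intro a ha b hb hab h0
    have h1 := hsep a ha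
    have h2 : ∏ b ∈ T.erase a, ‖br α β a b‖ = 0 :=
      Finset.prod_eq_zero (Finset.mem_erase.2 ⟨hab.symm, hb⟩) (by rw [h0, norm_zero])
    linarith
  have h := lagrange_EE α β A T hT (fun l hl => hα l (hT hl)) hbr K (K - j) hcard (by omega) K
  rw [if_pos (by omega), show K - (K - j) = j by omega] at h
  rw [← h]
  refine (norm_sum_le _ _).trans ?_
  have : ∀ c ∈ T, ‖((-β c) ^ j * α c ^ (K - j) / ∏ c' ∈ T.erase c, br α β c c')
      * EE α β (A.erase c) K‖ ≤ τ / κ := by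
    intro c hc
    have h1 := hA c (hT hc)
    have ha : ‖α c‖ ≤ 1 := by linarith [norm_nonneg (β c)]
    have hb : ‖β c‖ ≤ 1 := by linarith [norm_nonneg (α c)]
    rw [norm_mul, norm_div, norm_mul, norm_pow, norm_pow, norm_neg, norm_prod, div_mul_eq_mul_div]
    refine div_le_div₀ hτ ?_ hκ (hsep c hc)
    have h2 : ‖β c‖ ^ j ≤ 1 := pow_le_one₀ (norm_nonneg _) hb
    have h3 : ‖α c‖ ^ (K - j) ≤ 1 := pow_le_one₀ (norm_nonneg _) ha
    calc _ ≤ 1 * 1 * τ := by
          gcongr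
          exact hgood c hc
      _ = τ := by ring
  refine (Finset.sum_le_sum this).trans ?_
  rw [Finset.sum_const, hcard]; simp

end Pool.Agent.Helper94.ES
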