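import Pool.Agent.Helper94.ES.Core

/-!
# Numerical estimates
-/

open Finset

namespace Pool.Agent.Helper94.ES

theorem MB_le (n b K : ℕ) (hb : b ≤ K) (hbn : b ≤ n) (l r : ℝ) (hl : 0 < l) (hl1 : l ≤ 1 / 10)
    (hr : l ≤ r) (hn : (n : ℝ) ^ 2 * 2 ^ (2 * K + 8) * l ^ 2 ≤ 1) :
    MB n b (2 ^ K * (2 * l ^ 64)) (l ^ 16) (2 * l ^ 960) (2 * (4 * l ^ 896 + 4 * l ^ 16)) l r
      ≤ 2 * l ^ 13 := by
  have hl1' : l ≤ 1 := by linarith
  have hr0 : 0 < r := lt_of_lt_of_le hl hr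
  have hpow : ∀ m m' : ℕ, m' ≤ m → l ^ m ≤ l ^ m' := fun m m' h =>
    pow_le_pow_of_le_one hl.le hl1' h
  set W : ℝ := 2 ^ K * 2 ^ b with hW
  have hW1 : 1 ≤ W := by
    rw [hW]
    have h1 : (1 : ℝ) ≤ 2 ^ K := one_le_pow₀ (by norm_num)
    have h2 : (1 : ℝ) ≤ 2 ^ b := one_le_pow₀ (by norm_num)
    nlinarith
  have hWb : (2 : ℝ) ^ b ≤ W := by
    rw [hW]
    have h1 : (1 : ℝ) ≤ 2 ^ K := one_le_pow₀ (by norm_num)
    have h2 : (0 : ℝ) < 2 ^ b := by positivity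
    nlinarith
  have hW2 : W ≤ 2 ^ (2 * K) := by
    rw [hW, ← pow_add]
    exact pow_le_pow_right₀ (by norm_num) (by omega)
  unfold MB
  have e16 : 0 < l ^ 16 := by positivity
  -- inner
  have i1 : 2 ^ b * (2 ^ K * (2 * l ^ 64)) / l ^ 16 ≤ 2 * W * l ^ 16 := by
    have : 2 ^ b * (2 ^ K * (2 * l ^ 64)) / l ^ 16 = 2 * W * l ^ 48 := by
      rw [hW]; field_simp
    rw [this]
    have := hpow 48 16 (by norm_num)
    gcongr
    
  have i2 : 2 * l ^ 960 / l ^ 16 ≤ 2 * W * l ^ 16 := by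
    have : 2 * l ^ 960 / l ^ 16 = 2 * l ^ 944 := by field_simp
    rw [this]
    have h1 := hpow 944 16 (by norm_num)
    nlinarith
  have i3 : 2 * l ^ 960 ≤ 2 * W * l ^ 16 := by
    have h1 := hpow 960 16 (by norm_num)
    nlinarith
  have i4 : 2 * (4 * l ^ 896 + 4 * l ^ 16) ≤ 16 * W * l ^ 16 := by
    have h1 := hpow 896 16 (by norm_num)
    nlinarith
  have i5 : 2 ^ (b + 2) * (2 * l ^ 960 + l ^ 16) ≤ 12 * W * l ^ 16 := by
    have h1 := hpow 960 16 (by norm_num)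
    calc (2 : ℝ) ^ (b + 2) * (2 * l ^ 960 + l ^ 16) ≤ 2 ^ (b + 2) * (3 * l ^ 16) := by
          gcongr; linarith
      _ = 12 * 2 ^ b * l ^ 16 := by rw [pow_add]; ring
      _ ≤ 12 * W * l ^ 16 := by gcongr
  have inner : 2 ^ b * (2 ^ K * (2 * l ^ 64)) / l ^ 16 + 2 * l ^ 960 / l ^ 16 + 2 * l ^ 960
      + 2 * (4 * l ^ 896 + 4 * l ^ 16) + 2 ^ (b + 2) * (2 * l ^ 960 + l ^ 16)
      ≤ 64 * W * l ^ 16 := by
    have : 0 < W * l ^ 16 := by positivity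
    linarith
  have hbn' : (b : ℝ) ≤ n := by exact_mod_cast hbn
  have first : b * (n * (2 ^ b * (2 ^ K * (2 * l ^ 64)) / l ^ 16 + 2 * l ^ 960 / l ^ 16 + 2 * l ^ 960
      + 2 * (4 * l ^ 896 + 4 * l ^ 16) + 2 ^ (b + 2) * (2 * l ^ 960 + l ^ 16))) / l ≤ l ^ 13 := by
    rw [div_le_iff₀ hl]
    calc _ ≤ (n : ℝ) * (n * (64 * 2 ^ (2 * K) * l ^ 16)) := by
          gcongr
          refine inner.trans ?_
          gcongr
      _ ≤ ((n : ℝ) ^ 2 * 2 ^ (2 * K + 8) * l ^ 2) * l ^ 14 := by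
          have : (2 : ℝ) ^ (2 * K + 8) = 256 * 2 ^ (2 * K) := by rw [pow_add]; norm_num; ring
          rw [this]
          have h3 : 0 ≤ (n : ℝ) ^ 2 * 2 ^ (2 * K) * l ^ 16 := by positivity
          nlinarith
      _ ≤ 1 * l ^ 14 := by gcongr
      _ = l ^ 13 * l := by ring
  have second : n * (2 ^ b * (2 ^ K * (2 * l ^ 64)) / (r / (128 * n))) ≤ l ^ 13 := by
    rcases Nat.eq_zero_or_pos n with rfl | hn0
    · simp; positivity
    have hn0' : (0 : ℝ) < n := by exact_mod_cast hn0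
    have : n * (2 ^ b * (2 ^ K * (2 * l ^ 64)) / (r / (128 * n)))
        = 256 * (n : ℝ) ^ 2 * W * l ^ 64 / r := by
      rw [hW]; field_simp; ring
    rw [this, div_le_iff₀ hr0]
    calc 256 * (n : ℝ) ^ 2 * W * l ^ 64 ≤ 256 * (n : ℝ) ^ 2 * 2 ^ (2 * K) * l ^ 64 := by gcongr
      _ = ((n : ℝ) ^ 2 * 2 ^ (2 * K + 8) * l ^ 2) * l ^ 62 := by
          have : (2 : ℝ) ^ (2 * K + 8) = 256 * 2 ^ (2 * K) := by rw [pow_add]; norm_num; ring
          rw [this]; ring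
      _ ≤ 1 * l ^ 62 := by gcongr
      _ ≤ l ^ 14 := by rw [one_mul]; exact hpow 62 14 (by norm_num)
      _ = l ^ 13 * l := by ring
      _ ≤ l ^ 13 * r := by gcongr
  linarith

theorem final_numeric (n b K : ℕ) (hb : b ≤ K) (hbn : b ≤ n) (l r K0 x e Q : ℝ) (hl : 0 < l)
    (hl1 : l ≤ 1 / 10) (hr : l ≤ r) (hn : (n : ℝ) ^ 2 * 2 ^ (2 * K + 8) * l ^ 2 ≤ 1)
    (hK0 : 1 ≤ K0) (hK0' : K0 ^ (2 * K) * l ≤ 1)
    (hx : l ≤ (x / 2) ^ K / (K + 1)) (he : l ^ 2 ≤ e) (hQ : l ^ 4 ≤ Q) :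
    K0 ^ (K + b) * MB n b (2 ^ K * (2 * l ^ 64)) (l ^ 16) (2 * l ^ 960)
      (2 * (4 * l ^ 896 + 4 * l ^ 16)) l r < (x / 2) ^ K / (K + 1) * Q * e := by
  have h1 := MB_le n b K hb hbn l r hl hl1 hr hn
  have h2 : K0 ^ (K + b) ≤ K0 ^ (2 * K) := pow_le_pow_right₀ hK0 (by omega)
  have hK0pos : 0 < K0 := by linarith
  calc K0 ^ (K + b) * MB n b (2 ^ K * (2 * l ^ 64)) (l ^ 16) (2 * l ^ 960)
        (2 * (4 * l ^ 896 + 4 * l ^ 16)) l r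
      ≤ K0 ^ (K + b) * (2 * l ^ 13) := by
        gcongr
    _ ≤ K0 ^ (2 * K) * (2 * l ^ 13) := by
        gcongr
    _ = (K0 ^ (2 * K) * l) * (2 * l ^ 12) := by ring
    _ ≤ 1 * (2 * l ^ 12) := by gcongr
    _ < l * l ^ 4 * l ^ 2 := by
        have h3 : l ^ 5 ≤ (1 / 10) ^ 5 := by gcongr
        have h4 : 0 < l ^ 7 := by positivity
        have : 1 * (2 * l ^ 12) = 2 * l ^ 5 * l ^ 7 := by ring
        rw [this]
        have : l * l ^ 4 * l ^ 2 = 1 * l ^ 7 := by ring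
        rw [this]
        have h5 : 2 * l ^ 5 < 1 := by
          have : ((1 : ℝ) / 10) ^ 5 < 1 / 2 := by norm_num
          linarith
        exact mul_lt_mul_of_pos_right h5 h4
    _ ≤ (x / 2) ^ K / (K + 1) * Q * e := by
        have : 0 < (x / 2) ^ K / (K + 1) := lt_of_lt_of_le hl hx
        have hQ0 : 0 < Q := lt_of_lt_of_le (by positivity) hQ
        gcongr

end Pool.Agent.Helper94.ES
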