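import Pool.Agent.Helper94.ES.Star
import Pool.Agent.Helper43.ES.LF

/-!
# Bounds from Lagrange interpolation at good nodes
-/

open Finset Polynomial
open Pool.Agent.Helper43.ES (lagrange_EE)

namespace Pool.Agent.Helper94.ES

set_option linter.unusedSectionVars false

variable {ι : Type*} [DecidableEq ι] {α β : ι → ℂ}

/-- auxiliary bound -/
theorem omega_aux (A F : Finset ι) (K : ℕ) (κ τ : ℝ) (hκ : 0 < κ) (hτ : 0 ≤ τ) (i : ι) (hi : i ∉ F)
    (hbr1 : ∀ a ∈ F, ‖br α β i a‖ ≤ 1)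
    (hsep : ∀ a ∈ F, κ ≤ ∏ b ∈ F.erase a, ‖br α β a b‖)
    (hgood : ∀ a ∈ F, ‖EE α β (A.erase a) K‖ ≤ τ)
    (hne : ∀ a ∈ F, br α β i a ≠ 0)
    (γ : ι → ℂ) (hγ : ∀ a ∈ F, ‖γ a‖ ≤ 1) (hγi : 1 / 2 ≤ ‖γ i‖) (Z : ℂ) (hZ : ‖Z‖ ≤ 1)
    (hid : ∑ c ∈ insert i F, (γ c ^ F.card / ∏ c' ∈ (insert i F).erase c, br α β c c')
      * EE α β (A.erase c) K = Z) :
    ‖EE α β (A.erase i) K‖ ≤ 2 ^ F.card * (∏ a ∈ F, ‖br α β i a‖ + F.card * (τ / κ)) := by
  rw [Finset.sum_insert hi, Finset.erase_insert hi] at hid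
  set Q : ℂ := ∏ a ∈ F, br α β i a with hQ
  have hQ0 : Q ≠ 0 := Finset.prod_ne_zero_iff.2 hne
  have hQn : ‖Q‖ = ∏ a ∈ F, ‖br α β i a‖ := by rw [hQ, norm_prod]
  have hterm : ∀ a ∈ F, ‖Q * ((γ a ^ F.card / ∏ c' ∈ (insert i F).erase a, br α β a c')
      * EE α β (A.erase a) K)‖ ≤ τ / κ := by
    intro a ha
    have hai : a ≠ i := by rintro rfl; exact hi ha
    have he : (insert i F).erase a = insert i (F.erase a) :=
      Finset.erase_insert_of_ne hai.symm
    have hi' : i ∉ F.erase a := fun h => hi (Finset.mem_of_mem_erase h)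
    rw [he, Finset.prod_insert hi']
    have hQ' : Q = br α β i a * ∏ b ∈ F.erase a, br α β i b := by
      rw [hQ, Finset.mul_prod_erase F (fun b => br α β i b) ha]
    have hbia := hne a ha
    have hbai : br α β a i = - br α β i a := br_swap i a
    have hP0 : (∏ b ∈ F.erase a, br α β a b) ≠ 0 := by
      intro h0
      have := hsep a ha
      rw [← norm_prod, h0, norm_zero] at this
      linarith
    have e1 : Q * ((γ a ^ F.card / (br α β a i * ∏ b ∈ F.erase a, br α β a b))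
        * EE α β (A.erase a) K)
        = - ((∏ b ∈ F.erase a, br α β i b) * γ a ^ F.card * EE α β (A.erase a) K
          / ∏ b ∈ F.erase a, br α β a b) := by
      rw [hQ', hbai]; field_simp
    rw [e1, norm_neg, norm_div, norm_mul, norm_mul, norm_pow, norm_prod, norm_prod]
    have h1 : ∏ b ∈ F.erase a, ‖br α β i b‖ ≤ 1 :=
      Finset.prod_le_one (fun _ _ => norm_nonneg _) fun b hb => hbr1 b (Finset.mem_of_mem_erase hb)
    have h2 : ‖γ a‖ ^ F.card ≤ 1 := pow_le_one₀ (norm_nonneg _) (hγ a ha)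
    have h3 := hgood a ha
    have h4 := hsep a ha
    have h5 : (∏ b ∈ F.erase a, ‖br α β i b‖) * ‖γ a‖ ^ F.card * ‖EE α β (A.erase a) K‖ ≤ τ := by
      calc _ ≤ 1 * 1 * τ := by gcongr
        _ = τ := by ring
    exact div_le_div₀ hτ h5 hκ h4
  have hmain : γ i ^ F.card * EE α β (A.erase i) K
      = Q * Z - ∑ a ∈ F, Q * ((γ a ^ F.card / ∏ c' ∈ (insert i F).erase a, br α β a c')
      * EE α β (A.erase a) K) := by
    rw [← Finset.mul_sum, ← mul_sub, ← hid]
    field_simp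
    ring
  have hnorm : ‖γ i‖ ^ F.card * ‖EE α β (A.erase i) K‖
      ≤ ∏ a ∈ F, ‖br α β i a‖ + F.card * (τ / κ) := by
    rw [← norm_pow, ← norm_mul, hmain]
    refine (norm_sub_le _ _).trans ?_
    refine add_le_add ?_ ?_
    · rw [norm_mul, hQn]
      calc _ ≤ (∏ a ∈ F, ‖br α β i a‖) * 1 := by gcongr
        _ = _ := mul_one _
    · refine (norm_sum_le _ _).trans ?_
      calc _ ≤ ∑ a ∈ F, τ / κ := Finset.sum_le_sum hterm
        _ = _ := by simp
  have h2 : (1 / 2 : ℝ) ^ F.card ≤ ‖γ i‖ ^ F.card := pow_le_pow_left₀ (by norm_num) hγi _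
  have h3 : (1 / 2 : ℝ) ^ F.card * ‖EE α β (A.erase i) K‖
      ≤ ∏ a ∈ F, ‖br α β i a‖ + F.card * (τ / κ) :=
    (mul_le_mul_of_nonneg_right h2 (norm_nonneg _)).trans hnorm
  have h4 : (2 : ℝ) ^ F.card * ((1 / 2 : ℝ) ^ F.card * ‖EE α β (A.erase i) K‖)
      = ‖EE α β (A.erase i) K‖ := by
    rw [← mul_assoc, ← mul_pow]; norm_num
  rw [← h4]
  exact mul_le_mul_of_nonneg_left h3 (by positivity)

/-- C1: at every element of `A`, the erased coefficient is controlled by the node polynomial. -/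
theorem omega_bound {A : Finset ι} (hA : ∀ i ∈ A, ‖α i‖ + ‖β i‖ = 1) (hα : ∀ i ∈ A, α i ≠ 0)
    {F : Finset ι} (hF : F ⊆ A) (K : ℕ) {κ τ : ℝ} (hκ : 0 < κ) (hκ1 : κ ≤ 1) (hτ : 0 ≤ τ)
    (hsep : ∀ a ∈ F, κ ≤ ∏ b ∈ F.erase a, ‖br α β a b‖)
    (hgood : ∀ a ∈ F, ‖EE α β (A.erase a) K‖ ≤ τ) {i : ι} (hiA : i ∈ A) (hi : i ∉ F) :
    ‖EE α β (A.erase i) K‖ ≤ 2 ^ F.card * (∏ a ∈ F, ‖br α β i a‖ + F.card * (τ / κ)) := by
  have hle : ∀ i ∈ A, ‖α i‖ + ‖β i‖ ≤ 1 := fun i hi => (hA i hi).le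
  by_cases hne : ∀ a ∈ F, br α β i a ≠ 0
  · have hbrF : ∀ a ∈ insert i F, ∀ b ∈ insert i F, a ≠ b → br α β a b ≠ 0 := by
      intro a ha b hb hab
      rw [Finset.mem_insert] at ha hb
      rcases ha with rfl | ha
      · rcases hb with rfl | hb
        · exact absurd rfl hab
        · exact hne b hb
      · rcases hb with rfl | hb
        · rw [br_swap]; exact neg_ne_zero.2 (hne a ha)
        · intro h0
          have h1 := hsep a ha
          have h2 : ∏ b ∈ F.erase a, ‖br α β a b‖ = 0 :=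
            Finset.prod_eq_zero (Finset.mem_erase.2 ⟨hab.symm, hb⟩) (by rw [h0, norm_zero])
          linarith
    have hT : insert i F ⊆ A := Finset.insert_subset hiA hF
    have hcard : (insert i F).card = F.card + 1 := Finset.card_insert_of_notMem hi
    have hsub : ∀ l ∈ A \ insert i F, ‖α l‖ + ‖β l‖ ≤ 1 := fun l hl =>
      hle l (Finset.mem_sdiff.1 hl).1
    rcases le_total (1 / 2 : ℝ) ‖α i‖ with h | h
    · refine omega_aux A F K κ τ hκ hτ i hi
        (fun a ha => norm_br_le_one (hle i hiA) (hle a (hF ha))) hsep hgood hne α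
        (fun a ha => by linarith [hA a (hF ha), norm_nonneg (β a)]) h
        (if F.card ≤ K then EE α β (A \ insert i F) (K - F.card) else 0) ?_ ?_
      · split_ifs
        · exact norm_EE_le_one hsub _
        · simp
      · have := lagrange_EE α β A (insert i F) hT (fun l hl => hα l (hT hl)) hbrF F.card F.card
          hcard le_rfl K
        rw [← this]
        refine Finset.sum_congr rfl fun c _ => ?_
        simp
    · refine omega_aux A F K κ τ hκ hτ i hi
        (fun a ha => norm_br_le_one (hle i hiA) (hle a (hF ha))) hsep hgood hne (fun c => - β c)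
        (fun a ha => by rw [norm_neg]; linarith [hA a (hF ha), norm_nonneg (α a)])
        (by rw [norm_neg]; linarith [hA i hiA]) (EE α β (A \ insert i F) K) ?_ ?_
      · exact norm_EE_le_one hsub _
      · have := lagrange_EE α β A (insert i F) hT (fun l hl => hα l (hT hl)) hbrF F.card 0
          hcard (Nat.zero_le _) K
        simp only [Nat.zero_le, if_true, Nat.sub_zero] at this
        rw [← this]
        refine Finset.sum_congr rfl fun c _ => ?_
        simp
  · push Not at hne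
    obtain ⟨a, ha, hab⟩ := hne
    have hia : i ≠ a := by rintro rfl; exact hi ha
    have h1 := norm_EE_erase_le hA hiA (hF ha) hia K
    rw [hab, norm_zero, add_zero] at h1
    have h2 := hgood a ha
    have h3 : (1 : ℕ) ≤ F.card := Finset.card_pos.2 ⟨a, ha⟩
    have h3' : (1 : ℝ) ≤ F.card := by exact_mod_cast h3
    have h4 : (2 : ℝ) ≤ 2 ^ F.card := by
      calc (2 : ℝ) = 2 ^ 1 := by norm_num
        _ ≤ 2 ^ F.card := pow_le_pow_right₀ (by norm_num) h3
    have h5 : τ ≤ τ / κ := by rw [le_div_iff₀ hκ]; nlinarith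
    have h6 : 0 ≤ ∏ a ∈ F, ‖br α β i a‖ := Finset.prod_nonneg fun _ _ => norm_nonneg _
    have h7 : τ ≤ F.card * (τ / κ) := by nlinarith [div_nonneg hτ hκ.le]
    calc ‖EE α β (A.erase i) K‖ ≤ 2 * τ := by linarith
      _ ≤ 2 ^ F.card * (∏ a ∈ F, ‖br α β i a‖ + F.card * (τ / κ)) := by
          apply mul_le_mul h4 (by linarith) hτ (by positivity)

end Pool.Agent.Helper94.ES
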