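import Pool.Agent.Helper94.ES.Coef

/-!
# The differential identity `(★)`
-/

open Finset Polynomial

namespace Pool.Agent.Helper94.ES

set_option linter.unusedSectionVars false

variable {ι : Type*} [DecidableEq ι] {α β : ι → ℂ}

/-- `pp A K = ∑ j ≤ K, (EE A j) X ^ (K - j)`. -/
noncomputable def pp (α β : ι → ℂ) (A : Finset ι) (K : ℕ) : ℂ[X] :=
  ∑ j ∈ range (K + 1), C (EE α β A j) * X ^ (K - j)

theorem pp_zero (A : Finset ι) : pp α β A 0 = C (EE α β A 0) := by simp [pp]

theorem pp_succ (A : Finset ι) (K : ℕ) :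
    pp α β A (K + 1) = X * pp α β A K + C (EE α β A (K + 1)) := by
  unfold pp
  rw [Finset.sum_range_succ, Finset.mul_sum]
  congr 1
  · refine Finset.sum_congr rfl fun j hj => ?_
    rw [Finset.mem_range] at hj
    rw [show K + 1 - j = (K - j) + 1 by omega, pow_succ]
    ring
  · simp

theorem pp_mul_eval {A : Finset ι} {i : ι} (hi : i ∈ A) (K : ℕ) (t : ℂ) :
    t * (pp α β A K).eval t = (α i * t + β i) * (pp α β (A.erase i) K).eval t
      - β i * EE α β (A.erase i) K := by
  induction K with
  | zero => simp only [pp_zero, eval_C]; rw [EE_erase_zero hi]; ring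
  | succ K ih =>
    rw [pp_succ, pp_succ]
    simp only [eval_add, eval_mul, eval_X, eval_C]
    rw [mul_add, ih, EE_erase_succ hi]; ring

theorem pp_derivative (A : Finset ι) (K : ℕ) (t : ℂ) :
    t * (pp α β A K).derivative.eval t + ((A.card : ℂ) - K) * (pp α β A K).eval t
      = ∑ i ∈ A, α i * (pp α β (A.erase i) K).eval t := by
  induction K with
  | zero =>
    simp only [pp_zero, eval_C, derivative_C, eval_zero]
    rw [sum_alpha_EE_erase]; push_cast; ring
  | succ K ih =>
    have h1 : ∑ i ∈ A, α i * (pp α β (A.erase i) (K + 1)).eval t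
        = t * ∑ i ∈ A, α i * (pp α β (A.erase i) K).eval t
          + ∑ i ∈ A, α i * EE α β (A.erase i) (K + 1) := by
      rw [Finset.mul_sum, ← Finset.sum_add_distrib]
      refine Finset.sum_congr rfl fun i _ => ?_
      rw [pp_succ]; simp only [eval_add, eval_mul, eval_X, eval_C]; ring
    rw [h1, ← ih, sum_alpha_EE_erase, pp_succ]
    simp only [derivative_add, derivative_mul, derivative_X, derivative_C, eval_add, eval_mul,
      eval_X, eval_C, one_mul, eval_zero, add_zero]
    push_cast; ring

/-- The identity `(★)`. -/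
theorem star (A : Finset ι) (K : ℕ) (t : ℂ) (hL : ∀ i ∈ A, α i * t + β i ≠ 0) :
    t * (pp α β A K).derivative.eval t + ((A.card : ℂ) - K) * (pp α β A K).eval t
      = t * (pp α β A K).eval t * ∑ i ∈ A, α i / (α i * t + β i)
        + ∑ i ∈ A, (α i * β i * EE α β (A.erase i) K) / (α i * t + β i) := by
  rw [pp_derivative, Finset.mul_sum, ← Finset.sum_add_distrib]
  refine Finset.sum_congr rfl fun i hi => ?_
  have h := pp_mul_eval (α := α) (β := β) hi K t
  have hL' := hL i hi
  have h2 : (pp α β (A.erase i) K).eval t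
      = (t * (pp α β A K).eval t + β i * EE α β (A.erase i) K) / (α i * t + β i) := by
    rw [eq_div_iff hL', h]; ring
  rw [h2]; field_simp

/-- coefficients of `pp` -/
theorem pp_coeff (A : Finset ι) (K j : ℕ) (hj : j ≤ K) :
    (pp α β A K).coeff (K - j) = EE α β A j := by
  unfold pp
  rw [Polynomial.finsetSum_coeff]
  rw [Finset.sum_eq_single j]
  · simp
  · intro l hl hlj
    rw [Finset.mem_range] at hl
    rw [Polynomial.coeff_C_mul, Polynomial.coeff_X_pow, if_neg (by omega)]; simp
  · intro h; exact absurd (Finset.mem_range.2 (by omega)) h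

theorem pp_natDegree_le (A : Finset ι) (K : ℕ) : (pp α β A K).natDegree ≤ K := by
  unfold pp
  refine Polynomial.natDegree_sum_le_of_forall_le _ _ fun j _ => ?_
  exact (Polynomial.natDegree_C_mul_X_pow_le _ _).trans (by omega)

end Pool.Agent.Helper94.ES
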